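import Mathlib

set_option autoImplicit false
set_option linter.all false

open Set Topology Filter Cardinal

namespace Pool.Agent.Helper391.Wfc

/-- The well-ordered set of the countable ordinals (order type `ω₁`). -/
abbrev Om : Type := (ℵ₁ : Cardinal.{0}).ord.ToType

/-- `C` is a closed unbounded subset of `ω₁` -/
def IsClub (C : Om → Prop) : Prop :=
  (∀ a : Om, ∃ b : Om, a < b ∧ C b) ∧
    ∀ a : Om, (∃ b, b < a) → (∀ b : Om, b < a → ∃ c : Om, (b < c ∧ c < a) ∧ C c) → C a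

/-- the diamond principle -/
def Diamond : Prop :=
  ∃ A : Om → Om → Prop, ∀ S : Om → Prop, ∀ C : Om → Prop,
    IsClub C → ∃ a : Om, C a ∧ ∀ b : Om, b < a → (S b ↔ A a b)

/-- `a` is a limit: it is not the least element and not a successor -/
def Lim (a : Om) : Prop := (∃ b, b < a) ∧ ∀ b < a, ∃ c, b < c ∧ c < a

/-- a diamond sequence for subsets of `Om × ℕ` -/
def Guess (G : Om → Set (Om × ℕ)) : Prop :=
  ∀ S : Set (Om × ℕ), ∀ C : Om → Prop, IsClub C →
    ∃ a : Om, C a ∧ ∀ b < a, ∀ n : ℕ, ((b, n) ∈ S ↔ (b, n) ∈ G a)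

/-- the points of the space -/
abbrev Pt : Type := Om × ℕ

/-- the rank of a point of index `k`; each rank is taken infinitely often on each level -/
def rk (k : ℕ) : ℕ := (Nat.unpair k).1

/-- one level of the construction: for each index the neighbourhood, without the point itself -/
abbrev Row : Type := ℕ → Set Pt

/-- the basic compact open neighbourhood of `y` -/
def K (f : Om → Row) (y : Pt) : Set Pt := insert y (f y.1 y.2)

/-- the smaller neighbourhoods of `y` -/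
def B (f : Om → Row) (y : Pt) (F : Set Pt) : Set Pt := {x | x ∈ K f y ∧ ∀ w ∈ F, x ∉ K f w}

/-- `F` is a finite set of points of levels below `a` -/
def Small (a : Om) (F : Set Pt) : Prop := F.Finite ∧ ∀ w ∈ F, w.1 < a

/-- `A` is not covered by finitely many `K f w`, `w` of level below `a` -/
def NC (f : Om → Row) (a : Om) (A : Set Pt) : Prop :=
  ∀ F, Small a F → ∃ x ∈ A, ∀ w ∈ F, x ∉ K f w

/-- `r` is a correct level `a` of the space whose lower levels are given by `f` -/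
structure Stage (H : Om → ℕ → Set Pt) (a : Om) (f : Om → Row) (r : Row) : Prop where
  sub : ∀ k, ∀ x ∈ r k, x.1 < a ∧ rk x.2 ≤ rk k
  opn : ∀ k, ∀ x ∈ r k, ∃ F, Small x.1 F ∧ B f x F ⊆ r k
  cls : ∀ k, ∀ x : Pt, x.1 < a → x ∉ r k → ∃ F, Small x.1 F ∧ Disjoint (B f x F) (r k)
  disj : ∀ k l, k ≠ l → Disjoint (r k) (r l)
  lim : ∀ b ≤ a, ∀ j m, NC f a {x | x ∈ H b j ∧ x.1 < a ∧ rk x.2 = m} →
    ∀ k, m ≤ rk k → ∀ F, Small a F → ∃ x ∈ r k, x ∈ H b j ∧ rk x.2 = m ∧ ∀ w ∈ F, x ∉ K f w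

/-- the space -/
def Sp (f : Om → Row) : Type := Pt

/-- `W` is open iff it contains with each point `y` some `B f y F` -/
instance (f : Om → Row) : TopologicalSpace (Sp f) where
  IsOpen W := ∀ y : Pt, y ∈ (show Set Pt from W) → ∃ F, Small y.1 F ∧ B f y F ⊆ W
  isOpen_univ := fun y _ => ⟨∅, ⟨Set.finite_empty, by simp⟩, fun _ _ => Set.mem_univ _⟩
  isOpen_inter := by
    intro U V hU hV y hy
    obtain ⟨F, hF, h1⟩ := hU y hy.1
    obtain ⟨G, hG, h2⟩ := hV y hy.2
    refine ⟨F ∪ G, ⟨hF.1.union hG.1, ?_⟩, ?_⟩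
    · rintro w (hw | hw)
      · exact hF.2 w hw
      · exact hG.2 w hw
    · intro x hx
      exact ⟨h1 ⟨hx.1, fun w hw => hx.2 w (Or.inl hw)⟩, h2 ⟨hx.1, fun w hw => hx.2 w (Or.inr hw)⟩⟩
  isOpen_sUnion := by
    intro S hS y hy
    obtain ⟨U, hU, hyU⟩ := hy
    obtain ⟨F, hF, h1⟩ := hS U hU y hyU
    exact ⟨F, hF, h1.trans (Set.subset_sUnion_of_mem hU)⟩

lemma isOpen_iff' {f : Om → Row} (W : Set (Sp f)) :
    IsOpen W ↔ ∀ y : Pt, y ∈ (show Set Pt from W) → ∃ F, Small y.1 F ∧ B f y F ⊆ W := Iff.rfl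

/-- weakly first countable spaces -/
def WeaklyFirstCountable (X : Type) [TopologicalSpace X] : Prop :=
  ∃ V : X → ℕ → Set X, (∀ x n, x ∈ V x n ∧ V x (n + 1) ⊆ V x n) ∧
    ∀ U : Set X, IsOpen U ↔ ∀ x ∈ U, ∃ n, V x n ⊆ U

/-- `𝓕` is a closed ultrafilter: a maximal filter in the lattice of closed sets -/
structure IsClosedUltrafilter {S : Type} [TopologicalSpace S] (𝓕 : Set (Set S)) : Prop where
  closed : ∀ A ∈ 𝓕, IsClosed A
  univ_mem : Set.univ ∈ 𝓕
  empty_notMem : ∅ ∉ 𝓕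
  inter : ∀ A ∈ 𝓕, ∀ A' ∈ 𝓕, A ∩ A' ∈ 𝓕
  mono : ∀ A ∈ 𝓕, ∀ A', IsClosed A' → A ⊆ A' → A' ∈ 𝓕
  maximal : ∀ A, IsClosed A → A ∉ 𝓕 → ∃ A' ∈ 𝓕, A ∩ A' = ∅

/-- every closed ultrafilter with the countable intersection property has nonempty
intersection -/
def AlphaRealcompact (S : Type) [TopologicalSpace S] : Prop :=
  ∀ 𝓕 : Set (Set S), IsClosedUltrafilter 𝓕 →
    (∀ 𝓖 ⊆ 𝓕, 𝓖.Countable → (⋂₀ 𝓖).Nonempty) → (⋂₀ 𝓕).Nonempty

/-- every finite Borel measure is inner regular with respect to the compact sets -/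
def RadonSpace (X : Type) [TopologicalSpace X] : Prop :=
  ∀ μ : @MeasureTheory.Measure X (borel X), @MeasureTheory.IsFiniteMeasure X (borel X) μ →
    ∀ A : Set X, @MeasurableSet X (borel X) A → ∀ c < μ A, ∃ C ⊆ A, IsCompact C ∧ c < μ C

/-- weakly `θ`-refinable spaces -/
def WeaklyThetaRefinable (X : Type) [TopologicalSpace X] : Prop :=
  ∀ 𝓤 : Set (Set X), (∀ U ∈ 𝓤, IsOpen U) → ⋃₀ 𝓤 = Set.univ →
    ∃ 𝓥 : ℕ → Set (Set X), (∀ n, ∀ V ∈ 𝓥 n, IsOpen V ∧ ∃ U ∈ 𝓤, V ⊆ U) ∧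
      ∀ x, ∃ n, (∃ V ∈ 𝓥 n, x ∈ V) ∧ {V | V ∈ 𝓥 n ∧ x ∈ V}.Finite

/-! ### basic facts about `Om` -/

lemma mk_Om : Cardinal.mk Om = ℵ₁ := Cardinal.mk_ord_toType _

lemma countable_Iio (a : Om) : (Iio a).Countable := by
  have h : Cardinal.mk (Iio a) < Cardinal.mk Om :=
    Cardinal.mk_Iio_lt (α := (ℵ₁ : Cardinal.{0}).ord.ToType) a (by simp)
  rw [mk_Om] at h
  rwa [← Cardinal.le_aleph0_iff_set_countable, ← Order.lt_succ_iff, Cardinal.succ_aleph0]

lemma countable_Iic (a : Om) : (Iic a).Countable := by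
  rw [← Iio_union_right]
  exact (countable_Iio a).union (countable_singleton a)

instance : Uncountable Om := by
  rw [← not_countable_iff, ← Cardinal.mk_le_aleph0_iff, mk_Om, not_le]
  exact Cardinal.aleph0_lt_aleph_one

/-- countable sets are bounded -/
lemma bdd_of_countable {A : Set Om} (hA : A.Countable) : ∃ b, ∀ a ∈ A, a < b := by
  by_contra hcon
  push Not at hcon
  have : (univ : Set Om) ⊆ ⋃ a ∈ A, Iic a := by
    intro x _
    obtain ⟨a, ha, hx⟩ := hcon x
    exact mem_biUnion ha hx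
  exact not_countable_univ ((hA.biUnion fun a _ => countable_Iic a).mono this)

instance : Nonempty Om := by
  by_contra h
  rw [not_nonempty_iff] at h
  exact not_countable (α := Om) inferInstance

lemma exists_gt' (a : Om) : ∃ b, a < b := by
  obtain ⟨b, hb⟩ := bdd_of_countable (countable_singleton a)
  exact ⟨b, hb a rfl⟩

/-- recursion along a well-ordered set -/
lemma exists_rec {I : Type} [LinearOrder I] [WellFoundedLT I] {R : Type} [Nonempty R]
    (Q : I → (I → R) → R → Prop)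
    (hloc : ∀ a f f' r, (∀ b < a, f b = f' b) → Q a f r → Q a f' r)
    (hex : ∀ a f, (∀ b < a, Q b f (f b)) → ∃ r, Q a f r) : ∃ f : I → R, ∀ a, Q a f (f a) := by
  classical
  have : Inhabited R := Classical.inhabited_of_nonempty inferInstance
  let tr : (a : I) → ((b : I) → b < a → R) → I → R :=
    fun a p b => if h : b < a then p b h else default
  let F : (a : I) → ((b : I) → b < a → R) → R :=
    fun a p => if h : ∃ r, Q a (tr a p) r then h.choose else default
  let f : I → R := (wellFounded_lt (α := I)).fix F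
  have hf : ∀ a, f a = F a (fun b _ => f b) := fun a => (wellFounded_lt (α := I)).fix_eq F a
  refine ⟨f, ?_⟩
  intro a
  refine (wellFounded_lt (α := I)).induction (C := fun a => Q a f (f a)) a ?_
  intro a ih
  · have htr : ∀ b < a, f b = tr a (fun b _ => f b) b := by
      intro b hb
      simp [tr, hb]
    obtain ⟨r, hr⟩ := hex a f ih
    have h1 : ∃ r, Q a (tr a (fun b _ => f b)) r := ⟨r, hloc a f _ r htr hr⟩
    have h2 : Q a (tr a (fun b _ => f b)) (f a) := by
      rw [hf a]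
      show Q a (tr a (fun b _ => f b)) (dite _ _ _)
      rw [dif_pos h1]
      exact h1.choose_spec
    exact hloc a _ f _ (fun b hb => (htr b hb).symm) h2

end Pool.Agent.Helper391.Wfc
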