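import Pool.Agent.Helper391.Wfc.Defs

set_option autoImplicit false
set_option linter.all false

open Set Topology Filter Cardinal

namespace Pool.Agent.Helper391.Wfc



theorem closedK (H : Om → ℕ → Set Pt) (f : Om → Row) (x y : Pt) (hx : Stage H x.1 f (f x.1))
    (hy : Stage H y.1 f (f y.1)) (h : x ∉ K f y) :
    ∃ F, Small x.1 F ∧ Disjoint (B f x F) (K f y) := by
  rcases lt_trichotomy y.1 x.1 with hlt | heq | hgt
  · refine ⟨{y}, ⟨Set.finite_singleton y, ?_⟩, ?_⟩
    · intro w hw
      rw [Set.mem_singleton_iff] at hw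
      rw [hw]; exact hlt
    · rw [Set.disjoint_left]
      intro z hz hzy
      exact hz.2 y (Set.mem_singleton y) hzy
  · refine ⟨∅, ⟨Set.finite_empty, by simp⟩, ?_⟩
    obtain ⟨a, k⟩ := x
    obtain ⟨b, l⟩ := y
    simp only at heq
    subst heq
    have hkl : k ≠ l := by
      rintro rfl
      exact h (Set.mem_insert _ _)
    rw [Set.disjoint_left]
    rintro z ⟨hz, -⟩ hzy
    rcases hz with rfl | hz
    · exact h hzy
    · rcases hzy with rfl | hzy
      · have := (hx.sub k _ hz).1
        exact lt_irrefl _ this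
      · exact (Set.disjoint_left.1 (hx.disj k l hkl)) hz hzy
  · have hnot : x ∉ f y.1 y.2 := fun hh => h (Set.mem_insert_of_mem _ hh)
    obtain ⟨F, hF, hd⟩ := hy.cls y.2 x hgt hnot
    refine ⟨F, hF, ?_⟩
    rw [Set.disjoint_left] at hd ⊢
    intro z hz hzy
    rcases hzy with rfl | hzy
    · rcases hz.1 with h1 | h1
      · rw [h1] at hgt
        exact lt_irrefl _ hgt
      · have := (hx.sub x.2 _ h1).1
        exact lt_irrefl _ (this.trans hgt)
    · exact hd hz hzy

end Pool.Agent.Helper391.Wfc
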