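import Pool.Agent.Helper391.Wfc.Defs

set_option autoImplicit false
set_option linter.all false

open Set Topology Filter Cardinal

namespace Pool.Agent.Helper391.Wfc



theorem mem_closure_of (f : Om → Row) (y : Pt) (A : Set Pt)
    (h : ∀ F, Small y.1 F → ∃ x ∈ A, x ∈ B f y F) :
    (show Sp f from y) ∈ closure (show Set (Sp f) from A) := by
  rw [mem_closure_iff]
  intro W hW hy
  obtain ⟨F, hF, hFW⟩ := (isOpen_iff' W).1 hW y hy
  obtain ⟨x, hxA, hxB⟩ := h F hF
  exact ⟨x, hFW hxB, hxA⟩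

end Pool.Agent.Helper391.Wfc
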