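import Pool.Agent.Helper391.Wfc.Defs
import Pool.Agent.Helper391.Wfc.P_mem_closure_of

set_option autoImplicit false
set_option linter.all false

open Set Topology Filter Cardinal

namespace Pool.Agent.Helper391.Wfc



theorem limit_countable (H : Om → ℕ → Set Pt) (f : Om → Row) (hf : ∀ a, Stage H a f (f a))
    (b : Om) (m : ℕ) (A : Set Pt) (hA : A = {x : Pt | x ∈ H b 1 ∧ rk x.2 = m})
    (hc : A.Countable) (hn : ∀ F : Set Pt, F.Finite → ∃ x ∈ A, ∀ w ∈ F, x ∉ K f w) :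
    ∃ d : Om, ∀ y : Pt, d ≤ y.1 → m ≤ rk y.2 →
      (show Sp f from y) ∈ closure (show Set (Sp f) from A) := by
  obtain ⟨d0, hd0⟩ := bdd_of_countable (hc.image Prod.fst)
  refine ⟨max b d0, ?_⟩
  intro y hy hm
  have hby : b ≤ y.1 := (le_max_left _ _).trans hy
  have hdy : d0 ≤ y.1 := (le_max_right _ _).trans hy
  have hlev : ∀ x ∈ A, x.1 < y.1 := fun x hx =>
    (hd0 x.1 (mem_image_of_mem Prod.fst hx)).trans_le hdy
  have heq : {x : Pt | x ∈ H b 1 ∧ x.1 < y.1 ∧ rk x.2 = m} = A := by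
    ext x
    constructor
    · rintro ⟨h1, h2, h3⟩
      rw [hA]
      exact ⟨h1, h3⟩
    · intro hx
      have hx' := hx
      rw [hA] at hx'
      exact ⟨hx'.1, hlev x hx, hx'.2⟩
  apply mem_closure_of
  intro F hF
  have hnc : NC f y.1 {x : Pt | x ∈ H b 1 ∧ x.1 < y.1 ∧ rk x.2 = m} := by
    rw [heq]
    intro G hG
    exact hn G hG.1
  obtain ⟨x, hx1, hx2, hx3, hx4⟩ := (hf y.1).lim b hby 1 m hnc y.2 hm F hF
  refine ⟨x, ?_, ?_⟩
  · rw [hA]
    exact ⟨hx2, hx3⟩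
  · exact ⟨mem_insert_of_mem _ hx1, hx4⟩

end Pool.Agent.Helper391.Wfc
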