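import Pool.Agent.Helper391.Wfc.Defs

set_option autoImplicit false
set_option linter.all false

open Set Topology Filter Cardinal

namespace Pool.Agent.Helper391.Wfc

theorem club_closure (G : Om → Om) : IsClub (fun a => Lim a ∧ ∀ b < a, G b < a) := by
  constructor
  · intro b0
    have step : ∀ b : Om, ∃ c, b < c ∧ ∀ x ≤ b, G x < c := by
      intro b
      obtain ⟨c, hc⟩ := bdd_of_countable ((countable_singleton b).union ((countable_Iic b).image G))
      exact ⟨c, hc b (Or.inl rfl), fun x hx => hc _ (Or.inr ⟨x, hx, rfl⟩)⟩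
    choose nx h1 h2 using step
    let s : ℕ → Om := fun n => nx^[n] b0
    have hs : ∀ n, s (n + 1) = nx (s n) := fun n => Function.iterate_succ_apply' _ _ _
    have hmono : StrictMono s := strictMono_nat_of_lt_succ fun n => by rw [hs]; exact h1 _
    obtain ⟨c, hc⟩ := bdd_of_countable (countable_range s)
    have hne : {x : Om | ∀ n, s n < x}.Nonempty := ⟨c, fun n => hc _ ⟨n, rfl⟩⟩
    let a := wellFounded_lt.min _ hne
    have ha : ∀ n, s n < a := wellFounded_lt.min_mem _ hne
    have hlt : ∀ x < a, ∃ n, x ≤ s n := by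
      intro x hx
      by_contra hcon
      push Not at hcon
      exact wellFounded_lt.not_lt_min {x : Om | ∀ n, s n < x} hcon hx
    refine ⟨a, ha 0, ⟨⟨s 0, ha 0⟩, ?_⟩, ?_⟩
    · intro b hb
      obtain ⟨n, hn⟩ := hlt b hb
      exact ⟨s (n + 1), hn.trans_lt (hmono (Nat.lt_succ_self n)), ha _⟩
    · intro b hb
      obtain ⟨n, hn⟩ := hlt b hb
      have := h2 (s n) b hn
      rw [← hs] at this
      exact this.trans (ha _)
  · intro a hne ha
    refine ⟨⟨hne, fun b hb => ?_⟩, fun b hb => ?_⟩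
    · obtain ⟨c, ⟨h1, h2⟩, _⟩ := ha b hb
      exact ⟨c, h1, h2⟩
    · obtain ⟨c, ⟨h1, h2⟩, hc⟩ := ha b hb
      exact (hc.2 b h1).trans h2

end Pool.Agent.Helper391.Wfc
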