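import Pool.Agent.Helper391.Wfc.Defs

set_option autoImplicit false
set_option linter.all false

open Set Topology Filter Cardinal

namespace Pool.Agent.Helper391.Wfc



lemma nc_persists_aux {d : Om} (hd : Lim d) {F : Set Pt} (hF : F.Finite)
    (h : ∀ w ∈ F, w.1 < d) : ∃ c, c < d ∧ ∀ w ∈ F, w.1 < c := by
  induction F, hF using Set.Finite.induction_on with
  | empty =>
    obtain ⟨b, hb⟩ := hd.1
    exact ⟨b, hb, fun w hw => absurd hw (Set.notMem_empty w)⟩
  | @insert w F _ _ ih =>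
    obtain ⟨c, hc, hcF⟩ := ih fun w' hw' => h w' (Set.mem_insert_of_mem _ hw')
    obtain ⟨e, he1, he2⟩ := hd.2 w.1 (h w (Set.mem_insert _ _))
    refine ⟨max c e, max_lt hc he2, ?_⟩
    intro w' hw'
    rcases Set.mem_insert_iff.1 hw' with rfl | hw'
    · exact he1.trans_le (le_max_right _ _)
    · exact (hcF w' hw').trans_le (le_max_left _ _)

theorem nc_persists (H : Om → ℕ → Set Pt) (f : Om → Row) (hf : ∀ a, Stage H a f (f a))
    (d : Om) (hd : Lim d) (j m : ℕ) (A : Set Pt)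
    (hA : A = {x : Pt | x ∈ H d j ∧ x.1 < d ∧ rk x.2 = m})
    (hcof : ∀ b < d, ∃ x ∈ A, b ≤ x.1) (hH : ∀ x ∈ H d j, x.1 < d) (a : Om) (ha : d ≤ a) :
    NC f a A := by
  revert ha
  refine (wellFounded_lt (α := Om)).induction (C := fun a => d ≤ a → NC f a A) a ?_
  intro a ih _ F hF
  by_cases hc : ∀ w ∈ F, w.1 < d
  · obtain ⟨c, hcd, hcF⟩ := nc_persists_aux hd hF.1 hc
    obtain ⟨x, hxA, hx⟩ := hcof c hcd
    refine ⟨x, hxA, ?_⟩
    intro w hw hxw
    rcases Set.mem_insert_iff.1 hxw with h1 | h1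
    · rw [h1] at hx
      exact absurd (hcF w hw) (not_lt.2 hx)
    · have h2 := ((hf w.1).sub w.2 x h1).1
      exact absurd (h2.trans (hcF w hw)) (not_lt.2 hx)
  · push Not at hc
    obtain ⟨w1, hw1F, hw1d⟩ := hc
    obtain ⟨w0, hw0F, hw0⟩ := Set.exists_max_image F (fun w => w.1) hF.1 ⟨w1, hw1F⟩
    have hdb : d ≤ w0.1 := hw1d.trans (hw0 w1 hw1F)
    have hba : w0.1 < a := hF.2 w0 hw0F
    have hNC := ih w0.1 hba hdb
    have hAeq : {x : Pt | x ∈ H d j ∧ x.1 < w0.1 ∧ rk x.2 = m} = A := by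
      rw [hA]
      ext x
      constructor
      · rintro ⟨h1, _, h3⟩
        exact ⟨h1, hH x h1, h3⟩
      · rintro ⟨h1, h2, h3⟩
        exact ⟨h1, h2.trans_le hdb, h3⟩
    have hex : ∃ i : ℕ, ((w0.1, Nat.pair m i) : Pt) ∉ F := by
      by_contra hcon
      push Not at hcon
      have hinj : Function.Injective (fun i : ℕ => ((w0.1, Nat.pair m i) : Pt)) := by
        intro i i' h
        have := congrArg Prod.snd h
        exact (Nat.pair_eq_pair.1 this).2
      have hinf := Set.infinite_range_of_injective hinj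
      exact hinf (hF.1.subset (by rintro _ ⟨i, rfl⟩; exact hcon i))
    obtain ⟨i, hi⟩ := hex
    have hrk : rk (Nat.pair m i) = m := by unfold rk; simp
    obtain ⟨x, hx1, hx2, hx3, hx4⟩ := (hf w0.1).lim d hdb j m (by rw [hAeq]; exact hNC)
      (Nat.pair m i) hrk.ge {w | w ∈ F ∧ w.1 < w0.1}
      ⟨hF.1.subset fun w hw => hw.1, fun w hw => hw.2⟩
    have hxlev := ((hf w0.1).sub _ x hx1).1
    refine ⟨x, ?_, ?_⟩
    · rw [hA]
      exact ⟨hx2, hH x hx2, hx3⟩
    · intro w hw hxw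
      rcases (hw0 w hw).lt_or_eq with h1 | h1
      · exact hx4 w ⟨hw, h1⟩ hxw
      · have h1' : w.1 = w0.1 := h1
        rcases Set.mem_insert_iff.1 hxw with h2 | h2
        · rw [h2, h1'] at hxlev
          exact lt_irrefl _ hxlev
        · rw [h1'] at h2
          have hne : Nat.pair m i ≠ w.2 := by
            intro h3
            apply hi
            rw [h3, ← h1']
            exact hw
          exact Set.disjoint_left.1 ((hf w0.1).disj _ _ hne) hx1 h2

end Pool.Agent.Helper391.Wfc
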