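import Pool.Agent.Helper391.Wfc.Defs
import Pool.Agent.Helper391.Wfc.P_club_closure
import Pool.Agent.Helper391.Wfc.P_nc_persists
import Pool.Agent.Helper391.Wfc.P_mem_closure_of

set_option autoImplicit false
set_option linter.all false

open Set Topology Filter Cardinal

namespace Pool.Agent.Helper391.Wfc



theorem limit_uncountable (H : Om → ℕ → Set Pt) (G : Om → Set Pt) (hG : Guess G)
    (hH : ∀ a, H a 0 = {x | x ∈ G a ∧ x.1 < a})
    (f : Om → Row) (hf : ∀ a, Stage H a f (f a)) (m : ℕ) (A : Set Pt) (hA : ¬ A.Countable)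
    (hm : ∀ x ∈ A, rk x.2 = m) :
    ∃ d : Om, ∀ y : Pt, d ≤ y.1 → m ≤ rk y.2 →
      (show Sp f from y) ∈ closure (show Set (Sp f) from A) := by
  have h1 : ∀ b : Om, ∃ x ∈ A, b ≤ x.1 := by
    intro b
    by_contra hcon
    push Not at hcon
    apply hA
    have hsub : A ⊆ (Iio b) ×ˢ (univ : Set ℕ) := by
      intro x hx
      exact ⟨hcon x hx, mem_univ _⟩
    exact ((countable_Iio b).prod countable_univ).mono hsub
  choose x hxA hxb using h1
  have h2 : ∀ b : Om, ∃ c, (x b).1 < c := fun b => exists_gt' _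
  choose g hg using h2
  obtain ⟨d, ⟨hd, hgd⟩, hGd⟩ := hG A _ (club_closure g)
  have hHd : ∀ z ∈ H d 0, z.1 < d := by
    intro z hz
    rw [hH d] at hz
    exact hz.2
  have hHA : ∀ z ∈ H d 0, z ∈ A := by
    intro z hz
    have hz2 := hz
    rw [hH d] at hz2
    exact (hGd z.1 hz2.2 z.2).2 hz2.1
  have hAH : ∀ z ∈ A, z.1 < d → z ∈ H d 0 := by
    intro z hz hzd
    rw [hH d]
    exact ⟨(hGd z.1 hzd z.2).1 hz, hzd⟩
  have hcof : ∀ b < d, ∃ z ∈ {z : Pt | z ∈ H d 0 ∧ z.1 < d ∧ rk z.2 = m}, b ≤ z.1 := by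
    intro b hb
    have h3 : (x b).1 < d := lt_trans (hg b) (hgd b hb)
    exact ⟨x b, ⟨hAH _ (hxA b) h3, h3, hm _ (hxA b)⟩, hxb b⟩
  refine ⟨d, ?_⟩
  intro y hdy hmy
  apply mem_closure_of f y A
  intro F hF
  have hnc := nc_persists H f hf d hd 0 m _ rfl hcof hHd y.1 hdy
  have hset : {z : Pt | z ∈ H d 0 ∧ z.1 < y.1 ∧ rk z.2 = m} = {z : Pt | z ∈ H d 0 ∧ z.1 < d ∧ rk z.2 = m} := by
    ext z
    constructor
    · rintro ⟨a1, _, a3⟩
      exact ⟨a1, hHd z a1, a3⟩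
    · rintro ⟨a1, a2, a3⟩
      exact ⟨a1, lt_of_lt_of_le a2 hdy, a3⟩
  rw [← hset] at hnc
  obtain ⟨z, hz1, hz2, hz3, hz4⟩ := (hf y.1).lim d hdy 0 m hnc y.2 hmy F hF
  exact ⟨z, hHA z hz2, Or.inr hz1, hz4⟩

end Pool.Agent.Helper391.Wfc
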