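import Pool.Agent.Helper391.Wfc.Defs
import Pool.Agent.Helper391.Wfc.P_limit_uncountable
import Pool.Agent.Helper391.Wfc.P_limit_countable

set_option autoImplicit false
set_option linter.all false

open Set Topology Filter Cardinal

namespace Pool.Agent.Helper391.Wfc



theorem closed_bounded (H : Om → ℕ → Set Pt) (G : Om → Set Pt) (hG : Guess G)
    (hH : ∀ a, H a 0 = {x | x ∈ G a ∧ x.1 < a})
    (hE : ∀ C : Set Pt, C.Countable → ∃ a, H a 1 = C)
    (f : Om → Row) (hf : ∀ a, Stage H a f (f a)) (n : ℕ) (C : Set (Sp f)) (hC : IsClosed C)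
    (hn : ∀ x : Pt, x ∈ (show Set Pt from C) → rk x.2 < n) :
    ∃ F : Set Pt, F.Finite ∧ ∀ x : Pt, x ∈ (show Set Pt from C) → ∃ w ∈ F, x ∈ K f w := by
  have key : ∀ m < n, ∀ A : Set Pt, A ⊆ (show Set Pt from C) →
      (∃ d : Om, ∀ y : Pt, d ≤ y.1 → m ≤ rk y.2 →
        (show Sp f from y) ∈ closure (show Set (Sp f) from A)) → False := by
    intro m hm A hA hd
    obtain ⟨d, hd⟩ := hd
    have hrk : rk (Nat.pair n 0) = n := by simp [rk, Nat.unpair_pair]
    have h1 := hd (d, Nat.pair n 0) le_rfl (by show m ≤ rk (Nat.pair n 0); rw [hrk]; exact hm.le)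
    have h2 : closure (show Set (Sp f) from A) ⊆ C := closure_minimal hA hC
    have h3 := hn (d, Nat.pair n 0) (h2 h1)
    have h4 : rk (Nat.pair n 0) < n := h3
    rw [hrk] at h4
    exact lt_irrefl _ h4
  have hcov : ∀ m < n, ∃ F : Set Pt, F.Finite ∧ ∀ x : Pt, x ∈ (show Set Pt from C) → rk x.2 = m →
      ∃ w ∈ F, x ∈ K f w := by
    intro m hm
    by_contra hcon
    push Not at hcon
    let A : Set Pt := {x : Pt | x ∈ (show Set Pt from C) ∧ rk x.2 = m}
    have hAC : A ⊆ (show Set Pt from C) := fun x hx => hx.1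
    have hcount : A.Countable := by
      by_contra hunc
      exact key m hm A hAC (limit_uncountable H G hG hH f hf m A hunc (fun x hx => hx.2))
    obtain ⟨b, hb⟩ := hE A hcount
    refine key m hm A hAC (limit_countable H f hf b m A ?_ hcount ?_)
    · rw [hb]
      ext x
      constructor
      · intro hx; exact ⟨hx, hx.2⟩
      · intro hx; exact hx.1
    · intro F hF
      obtain ⟨x, hx, hr, hw⟩ := hcon F hF
      exact ⟨x, ⟨hx, hr⟩, hw⟩
  choose! F hF using hcov
  refine ⟨⋃ m ∈ Finset.range n, F m, ?_, ?_⟩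
  · exact Set.Finite.biUnion (Finset.finite_toSet _) (fun m hm => (hF m (by simpa using hm)).1)
  · intro x hx
    have hlt := hn x hx
    obtain ⟨w, hw, hxw⟩ := (hF _ hlt).2 x hx rfl
    refine ⟨w, ?_, hxw⟩
    simp only [Finset.mem_range, Set.mem_iUnion]
    exact ⟨_, hlt, hw⟩

end Pool.Agent.Helper391.Wfc
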