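import Pool.Agent.Helper391.Wfc.Defs

set_option autoImplicit false
set_option linter.all false

open Set Topology Filter Cardinal

namespace Pool.Agent.Helper391.Wfc



theorem closed_zero (f : Om → Row)
    (hl : ∀ A : Set Pt, ¬ A.Countable → (∀ x ∈ A, rk x.2 = 0) →
      ∃ d : Om, ∀ y : Pt, d ≤ y.1 → 0 ≤ rk y.2 →
        (show Sp f from y) ∈ closure (show Set (Sp f) from A))
    (C : Set {x : OnePoint (Sp f) | ∃ y : Pt, rk y.2 = 0 ∧ x = ((show Sp f from y) : Sp f)})
    (hC : IsClosed C) : C.Countable ∨ Cᶜ.Countable := by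
  classical
  let cc : Pt → OnePoint (Sp f) := fun y => ((show Sp f from y) : Sp f)
  let A : Set Pt := {y | ∃ h : rk y.2 = 0, (⟨cc y, y, h, rfl⟩ :
    {x : OnePoint (Sp f) | ∃ y : Pt, rk y.2 = 0 ∧ x = ((show Sp f from y) : Sp f)}) ∈ C}
  by_cases hA : A.Countable
  · left
    refine Set.countable_of_injective_of_countable_image (f := Subtype.val)
      Subtype.val_injective.injOn ((hA.image cc).mono ?_)
    rintro _ ⟨⟨x, y, hy, rfl⟩, hx, rfl⟩
    exact ⟨y, ⟨hy, hx⟩, rfl⟩
  · right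
    obtain ⟨d, hd⟩ := hl A hA (fun x hx => hx.1)
    have hkey : ∀ (y : Pt) (h : rk y.2 = 0), d ≤ y.1 → (⟨cc y, y, h, rfl⟩ :
        {x : OnePoint (Sp f) | ∃ y : Pt, rk y.2 = 0 ∧ x = ((show Sp f from y) : Sp f)}) ∈ C := by
      intro y h hdy
      have h1 := hd y hdy (Nat.zero_le _)
      have hcont : Continuous (fun z : Sp f => (z : OnePoint (Sp f))) := OnePoint.continuous_coe
      have h2 := image_closure_subset_closure_image hcont ⟨_, h1, rfl⟩
      rw [← hC.closure_eq, closure_subtype]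
      refine closure_mono ?_ h2
      rintro _ ⟨z, hz, rfl⟩
      obtain ⟨hz1, hz2⟩ : z ∈ A := hz
      exact ⟨_, hz2, rfl⟩
    have hcnt : ({y : Pt | y.1 < d} : Set Pt).Countable := by
      refine ((countable_Iio d).prod (countable_univ (α := ℕ))).mono ?_
      rintro ⟨a, k⟩ h
      exact ⟨h, mem_univ _⟩
    refine Set.countable_of_injective_of_countable_image (f := Subtype.val)
      Subtype.val_injective.injOn ((hcnt.image cc).mono ?_)
    rintro _ ⟨⟨x, y, hy, rfl⟩, hx, rfl⟩
    refine ⟨y, ?_, rfl⟩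
    by_contra hcon
    exact hx (hkey y hy (not_lt.1 hcon))

end Pool.Agent.Helper391.Wfc
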