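import Pool.Agent.Helper391.Wfc.Defs

set_option autoImplicit false
set_option linter.all false

open Set Topology Filter Cardinal

namespace Pool.Agent.Helper391.Wfc



theorem club_inter (C D : Om → Prop) (hC : IsClub C) (hD : IsClub D) :
    IsClub (fun a => C a ∧ D a) := by
  constructor
  · intro a0
    choose nC hC1 hC2 using hC.1
    choose nD hD1 hD2 using hD.1
    let s : ℕ → Om := fun n => Nat.rec a0 (fun _ x => nD (nC x)) n
    have hs0 : s 0 = a0 := rfl
    have hs1 : ∀ n, s (n + 1) = nD (nC (s n)) := fun n => rfl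
    obtain ⟨x0, hx0⟩ := bdd_of_countable (countable_range s)
    have hne : {x : Om | ∀ n, s n < x}.Nonempty := ⟨x0, fun n => hx0 _ (mem_range_self n)⟩
    let a := (wellFounded_lt (α := Om)).min {x : Om | ∀ n, s n < x} hne
    have ha : ∀ n, s n < a := (wellFounded_lt (α := Om)).min_mem {x : Om | ∀ n, s n < x} hne
    have hlow : ∀ b, b < a → ∃ n, b ≤ s n := by
      intro b hb
      by_contra hcon
      push Not at hcon
      exact (wellFounded_lt (α := Om)).not_lt_min {x : Om | ∀ n, s n < x} hcon hb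
    refine ⟨a, ha 0, ?_, ?_⟩
    · apply hC.2 a ⟨a0, ha 0⟩
      intro b hb
      obtain ⟨n, hn⟩ := hlow b hb
      refine ⟨nC (s n), ⟨lt_of_le_of_lt hn (hC1 _), ?_⟩, hC2 _⟩
      have h1 : nC (s n) < s (n + 1) := hD1 _
      exact h1.trans (ha (n + 1))
    · apply hD.2 a ⟨a0, ha 0⟩
      intro b hb
      obtain ⟨n, hn⟩ := hlow b hb
      refine ⟨s (n + 1), ⟨lt_of_le_of_lt hn ((hC1 _).trans (hD1 _)), ha (n + 1)⟩, hD2 _⟩
  · intro a ha h
    exact ⟨hC.2 a ha fun b hb => let ⟨c, hc, hcc⟩ := h b hb; ⟨c, hc, hcc.1⟩,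
      hD.2 a ha fun b hb => let ⟨c, hc, hcc⟩ := h b hb; ⟨c, hc, hcc.2⟩⟩

end Pool.Agent.Helper391.Wfc
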