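import Pool.Agent.Helper391.Wfc.Defs

set_option autoImplicit false
set_option linter.all false

open Set Topology Filter Cardinal

namespace Pool.Agent.Helper391.Wfc



theorem openK (H : Om → ℕ → Set Pt) (f : Om → Row) (x y : Pt) (hy : Stage H y.1 f (f y.1))
    (h : x ∈ K f y) : ∃ F, Small x.1 F ∧ B f x F ⊆ K f y := by
  rcases h with rfl | h
  · exact ⟨∅, ⟨Set.finite_empty, fun w hw => absurd hw (Set.notMem_empty w)⟩, fun z hz => hz.1⟩
  · obtain ⟨F, hF, hB⟩ := hy.opn y.2 x h
    exact ⟨F, hF, hB.trans (Set.subset_insert _ _)⟩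

end Pool.Agent.Helper391.Wfc
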