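import Pool.Agent.Helper391.Wfc.Defs
import Pool.Agent.Helper391.Wfc.P_openK

set_option autoImplicit false
set_option linter.all false

open Set Topology Filter Cardinal

namespace Pool.Agent.Helper391.Wfc



theorem isOpen_K (H : Om → ℕ → Set Pt) (f : Om → Row) (hf : ∀ a, Stage H a f (f a)) (y : Pt) :
    IsOpen (show Set (Sp f) from K f y) := by
  rw [isOpen_iff']
  intro x hx
  exact openK H f x y (hf y.1) hx

end Pool.Agent.Helper391.Wfc
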