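import Pool.Agent.Helper391.Wfc.Defs
import Pool.Agent.Helper391.Wfc.P_isOpen_K

set_option autoImplicit false
set_option linter.all false

open Set Topology Filter Cardinal

namespace Pool.Agent.Helper391.Wfc



theorem K_countable_aux (H : Om → ℕ → Set Pt) (f : Om → Row) (hf : ∀ a, Stage H a f (f a))
    (y : Pt) : (K f y).Countable := by
  have h1 : K f y ⊆ (Iic y.1) ×ˢ (univ : Set ℕ) := by
    intro x hx
    refine ⟨?_, trivial⟩
    rcases hx with h | h
    · rw [h]; exact le_refl y.1
    · exact ((hf y.1).sub _ _ h).1.le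
  exact ((countable_Iic y.1).prod countable_univ).mono h1

theorem compact_countable (H : Om → ℕ → Set Pt) (f : Om → Row) (hf : ∀ a, Stage H a f (f a))
    (C : Set (OnePoint (Sp f))) (hC : C ⊆ Set.range ((↑) : Sp f → OnePoint (Sp f)))
    (hCc : IsCompact C) : C.Countable := by
  have himg : ((↑) : Sp f → OnePoint (Sp f)) '' (((↑) : Sp f → OnePoint (Sp f)) ⁻¹' C) = C :=
    Set.image_preimage_eq_of_subset hC
  have hc' : IsCompact (((↑) : Sp f → OnePoint (Sp f)) ⁻¹' C) := by
    rw [OnePoint.isOpenEmbedding_coe.isInducing.isCompact_iff, himg]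
    exact hCc
  obtain ⟨t, -, ht⟩ := hc'.elim_nhds_subcover (fun y => (show Set (Sp f) from K f y))
    (fun y _ => (isOpen_K H f hf y).mem_nhds (Set.mem_insert _ _))
  have h2 : (((↑) : Sp f → OnePoint (Sp f)) ⁻¹' C).Countable := by
    refine Set.Countable.mono ht ?_
    exact t.countable_toSet.biUnion (fun y _ => K_countable_aux H f hf y)
  rw [← himg]
  exact h2.image _

end Pool.Agent.Helper391.Wfc
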