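import Pool.Agent.Helper391.Wfc.Defs

set_option autoImplicit false
set_option linter.all false

open Set Topology Filter Cardinal

namespace Pool.Agent.Helper391.Wfc



theorem diamond_CH (h : Diamond) : ∃ B : Om → Set ℕ, ∀ X : Set ℕ, ∃ a, B a = X := by
  obtain ⟨A, hA⟩ := h
  have hinf : Infinite Om := inferInstance
  obtain ⟨b0, hb0⟩ := bdd_of_countable (countable_range (Infinite.natEmbedding Om))
  refine ⟨fun a => {n | A a (Infinite.natEmbedding Om n)}, fun X => ?_⟩
  obtain ⟨a, ha, hSA⟩ := hA (fun x => ∃ n ∈ X, Infinite.natEmbedding Om n = x) (fun a => b0 < a) (by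
    constructor
    · intro a
      obtain ⟨b, hb⟩ := exists_gt' (max a b0)
      exact ⟨b, (le_max_left _ _).trans_lt hb, (le_max_right _ _).trans_lt hb⟩
    · rintro a ⟨b, hb⟩ h2
      obtain ⟨c, ⟨_, hca⟩, hc⟩ := h2 b hb
      exact lt_trans hc hca)
  refine ⟨a, ?_⟩
  ext n
  have h1 : Infinite.natEmbedding Om n < a := (hb0 _ ⟨n, rfl⟩).trans ha
  have h2 := hSA _ h1
  show A a (Infinite.natEmbedding Om n) ↔ n ∈ X
  rw [← h2]
  constructor
  · rintro ⟨m, hm, hmn⟩
    rwa [(Infinite.natEmbedding Om).injective hmn] at hm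
  · intro hn
    exact ⟨n, hn, rfl⟩

end Pool.Agent.Helper391.Wfc
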