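import Pool.Agent.Helper391.Wfc.Defs
import Pool.Agent.Helper391.Wfc.P_club_closure
import Pool.Agent.Helper391.Wfc.P_club_inter

set_option autoImplicit false
set_option linter.all false

open Set Topology Filter Cardinal

namespace Pool.Agent.Helper391.Wfc



theorem diamond_prod (h : Diamond) : ∃ G : Om → Set (Om × ℕ), Guess G := by
  obtain ⟨A, hA⟩ := h
  have hcard : Cardinal.mk (Om × ℕ) = Cardinal.mk Om := by
    rw [Cardinal.mk_prod, Cardinal.lift_id, Cardinal.lift_id, mk_Om]
    simp
  obtain ⟨code⟩ := Cardinal.eq.1 hcard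
  refine ⟨fun a => {x | A a (code x)}, ?_⟩
  intro S C hC
  have hg : ∀ b : Om, ∃ c : Om, ∀ x : Om × ℕ, x.1 ≤ b → code x < c := by
    intro b
    have hc : (code '' {x : Om × ℕ | x.1 ≤ b}).Countable := by
      apply Set.Countable.image
      have : {x : Om × ℕ | x.1 ≤ b} = Iic b ×ˢ (Set.univ : Set ℕ) := by ext; simp
      rw [this]
      exact (countable_Iic b).prod Set.countable_univ
    obtain ⟨c, hc⟩ := bdd_of_countable hc
    exact ⟨c, fun x hx => hc _ ⟨x, hx, rfl⟩⟩
  choose g hg using hg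
  obtain ⟨a, ⟨haC, haL, hag⟩, ha⟩ := hA (fun x => code.symm x ∈ S) _
    (club_inter C _ hC (club_closure g))
  refine ⟨a, haC, fun b hb n => ?_⟩
  have h1 : code (b, n) < a := (hg b (b, n) le_rfl).trans (hag b hb)
  have h2 := ha _ h1
  simpa using h2

end Pool.Agent.Helper391.Wfc
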