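import Pool.Agent.Helper391.Wfc.Defs

set_option autoImplicit false
set_option linter.all false

open Set Topology Filter Cardinal

namespace Pool.Agent.Helper391.Wfc



theorem enum_countable (h : ∃ B : Om → Set ℕ, ∀ X : Set ℕ, ∃ a, B a = X) :
    ∃ E : Om → Set Pt, ∀ C : Set Pt, C.Countable → ∃ a, E a = C := by
  obtain ⟨B, hB⟩ := h
  have h1 : (Cardinal.continuum : Cardinal.{0}) ≤ ℵ₁ := by
    have h0 : Cardinal.mk (Set ℕ) ≤ Cardinal.mk Om := Cardinal.mk_le_of_surjective (f := B) hB
    rwa [mk_Om, Cardinal.mk_set, Cardinal.mk_nat, Cardinal.two_power_aleph0] at h0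
  have hPt : Cardinal.mk (Option Pt) ≤ Cardinal.continuum := by
    have e1 : Cardinal.mk Om ≤ Cardinal.continuum := by
      rw [mk_Om]; exact Cardinal.aleph_one_le_continuum
    have e2 : Cardinal.mk Pt ≤ Cardinal.continuum := by
      rw [Cardinal.mk_prod, Cardinal.lift_id, Cardinal.lift_id, Cardinal.mk_nat]
      calc Cardinal.mk Om * ℵ₀ ≤ Cardinal.continuum * Cardinal.continuum :=
            mul_le_mul' e1 Cardinal.aleph0_le_continuum
        _ = Cardinal.continuum := Cardinal.continuum_mul_self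
    rw [Cardinal.mk_option]
    calc Cardinal.mk Pt + 1 ≤ Cardinal.continuum + Cardinal.continuum :=
          add_le_add e2 (Cardinal.one_le_aleph0.trans Cardinal.aleph0_le_continuum)
      _ = Cardinal.continuum := Cardinal.continuum_add_self
  have h2 : Cardinal.mk (ℕ → Option Pt) ≤ Cardinal.mk Om := by
    rw [mk_Om]
    calc Cardinal.mk (ℕ → Option Pt) = Cardinal.mk (Option Pt) ^ (ℵ₀ : Cardinal.{0}) := by
          simp
      _ ≤ Cardinal.continuum ^ (ℵ₀ : Cardinal.{0}) := Cardinal.power_le_power_right hPt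
      _ = Cardinal.continuum := Cardinal.continuum_power_aleph0
      _ ≤ ℵ₁ := h1
  obtain ⟨e⟩ := (Cardinal.le_def _ _).1 h2
  have hs : Function.Surjective (Function.invFun e) := Function.invFun_surjective e.injective
  refine ⟨fun a => {x | ∃ n, Function.invFun e a n = some x}, ?_⟩
  intro C hC
  rcases C.eq_empty_or_nonempty with rfl | hne
  · obtain ⟨a, ha⟩ := hs (fun _ => none)
    refine ⟨a, ?_⟩
    ext x
    constructor
    · rintro ⟨n, hn⟩
      rw [ha] at hn
      exact absurd hn (by simp)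
    · intro hx
      exact absurd hx (Set.notMem_empty x)
  · obtain ⟨g, hg⟩ := hC.exists_eq_range hne
    obtain ⟨a, ha⟩ := hs (fun n => some (g n))
    refine ⟨a, ?_⟩
    rw [hg]
    ext x
    constructor
    · rintro ⟨n, hn⟩
      rw [ha] at hn
      exact ⟨n, Option.some.inj hn⟩
    · rintro ⟨n, rfl⟩
      exact ⟨n, by rw [ha]⟩

end Pool.Agent.Helper391.Wfc
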