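import Pool.Agent.Helper391.Wfc.P_closedK

set_option autoImplicit false
set_option linter.all false

open Set Topology Filter Cardinal

namespace Pool.Agent.Helper391.Wfc

theorem isClosed_K (H : Om → ℕ → Set Pt) (f : Om → Row) (hf : ∀ a, Stage H a f (f a)) (y : Pt) :
    IsClosed (show Set (Sp f) from K f y) := by
  rw [← isOpen_compl_iff, isOpen_iff']
  intro x hx
  obtain ⟨F, hF, h⟩ := closedK H f x y (hf _) (hf _) hx
  exact ⟨F, hF, fun z hz hz' => (Set.disjoint_left.1 h) hz hz'⟩

end Pool.Agent.Helper391.Wfc
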