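import Pool.Agent.Helper391.Wfc.Defs
import Pool.Agent.Helper391.Wfc.P_isOpen_K
import Pool.Agent.Helper391.Wfc.P_isClosed_K

set_option autoImplicit false
set_option linter.all false

open Set Topology Filter Cardinal

namespace Pool.Agent.Helper391.Wfc



/-- the set `K f y` as a subset of the space -/
def KS (f : Om → Row) (y : Pt) : Set (Sp f) := K f y

theorem isCompact_KS (H : Om → ℕ → Set Pt) (f : Om → Row) (hf : ∀ a, Stage H a f (f a)) :
    ∀ (a : Om) (y : Pt), y.1 = a → IsCompact (KS f y) := by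
  intro a
  refine (wellFounded_lt (α := Om)).induction
    (C := fun a => ∀ y : Pt, y.1 = a → IsCompact (KS f y)) a ?_
  intro a ih y hy
  refine isCompact_of_finite_subcover ?_
  intro ι U hUo hU
  have hyK : (show Sp f from y) ∈ KS f y := Set.mem_insert _ _
  obtain ⟨i0, hi0⟩ := Set.mem_iUnion.1 (hU hyK)
  obtain ⟨F, hF, hB⟩ := (isOpen_iff' (U i0)).1 (hUo i0) y hi0
  have hZ : IsCompact (⋃ w ∈ F, (KS f y ∩ KS f w)) := by
    refine hF.1.isCompact_biUnion fun w hw => ?_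
    have h1 : IsCompact (KS f w) := ih w.1 (by rw [← hy]; exact hF.2 w hw) w rfl
    exact h1.inter_left (isClosed_K H f hf y)
  have hZs : (⋃ w ∈ F, (KS f y ∩ KS f w)) ⊆ ⋃ i, U i := by
    intro x hx
    obtain ⟨w, hw, hx1, hx2⟩ := Set.mem_iUnion₂.1 hx
    exact hU hx1
  obtain ⟨t, ht⟩ := hZ.elim_finite_subcover U hUo hZs
  classical
  refine ⟨insert i0 t, fun x hx => ?_⟩
  by_cases h : ∀ w ∈ F, (show Pt from x) ∉ K f w
  · have h1 : (show Pt from x) ∈ B f y F := ⟨hx, h⟩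
    exact Set.mem_biUnion (Finset.mem_insert_self i0 t) (hB h1)
  · push Not at h
    obtain ⟨w, hw, hxw⟩ := h
    have h1 : x ∈ ⋃ w ∈ F, (KS f y ∩ KS f w) := Set.mem_biUnion hw ⟨hx, hxw⟩
    obtain ⟨i, hi, hxi⟩ := Set.mem_iUnion₂.1 (ht h1)
    exact Set.mem_biUnion (Finset.mem_insert_of_mem hi) hxi

theorem isCompact_K (H : Om → ℕ → Set Pt) (f : Om → Row) (hf : ∀ a, Stage H a f (f a)) (y : Pt) :
    IsCompact (show Set (Sp f) from K f y) :=
  isCompact_KS H f hf y.1 y rfl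

end Pool.Agent.Helper391.Wfc
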