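import Pool.Agent.Helper391.Wfc.Defs
import Pool.Agent.Helper391.Wfc.P_isOpen_K

set_option autoImplicit false
set_option linter.all false

open Set Topology Filter Cardinal

namespace Pool.Agent.Helper391.Wfc



theorem locally_countable (H : Om → ℕ → Set Pt) (f : Om → Row) (hf : ∀ a, Stage H a f (f a))
    (x : {x : OnePoint (Sp f) | ∃ y : Pt, rk y.2 = 0 ∧ x = ((show Sp f from y) : Sp f)}) :
    ∃ U : Set {x : OnePoint (Sp f) | ∃ y : Pt, rk y.2 = 0 ∧ x = ((show Sp f from y) : Sp f)},
      IsOpen U ∧ U.Countable ∧ x ∈ U := by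
  obtain ⟨x, y, hy, rfl⟩ := x
  have hK : (K f y).Countable := by
    have h1 : K f y ⊆ (Iic y.1) ×ˢ (univ : Set ℕ) := by
      intro p hp
      refine ⟨?_, mem_univ _⟩
      rcases hp with hp | hp
      · rw [hp]; exact Set.mem_Iic.2 (le_refl y.1)
      · exact ((hf y.1).sub y.2 p hp).1.le
    exact ((countable_Iic y.1).prod (countable_univ)).mono h1
  let V : Set (OnePoint (Sp f)) := (fun z : Sp f => (z : OnePoint (Sp f))) '' (show Set (Sp f) from K f y)
  have hV : IsOpen V := OnePoint.isOpenEmbedding_coe.isOpenMap _ (isOpen_K H f hf y)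
  have hVc : V.Countable := hK.image _
  refine ⟨Subtype.val ⁻¹' V, hV.preimage continuous_subtype_val, ?_, ?_⟩
  · exact hVc.preimage Subtype.val_injective
  · exact ⟨y, Or.inl rfl, rfl⟩

end Pool.Agent.Helper391.Wfc
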