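import Pool.Agent.Helper391.Wfc.Defs

set_option autoImplicit false
set_option linter.all false

open Set Topology Filter Cardinal

namespace Pool.Agent.Helper391.Wfc



theorem not_alpha (S : Type) [TopologicalSpace S] (hu : ¬ (Set.univ : Set S).Countable)
    (hc : ∀ C : Set S, IsClosed C → C.Countable ∨ Cᶜ.Countable)
    (hl : ∀ x : S, ∃ U : Set S, IsOpen U ∧ U.Countable ∧ x ∈ U) : ¬ AlphaRealcompact S := by
  intro hα
  choose U hUo hUc hxU using hl
  have hF : IsClosedUltrafilter {A : Set S | IsClosed A ∧ Aᶜ.Countable} :=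
    { closed := fun A h => h.1
      univ_mem := ⟨isClosed_univ, by rw [Set.compl_univ]; exact Set.countable_empty⟩
      empty_notMem := fun h => hu (by
        have h2 := h.2
        rwa [Set.compl_empty] at h2)
      inter := fun A hA A' hA' => ⟨hA.1.inter hA'.1, by
        rw [Set.compl_inter]
        exact hA.2.union hA'.2⟩
      mono := fun A hA A' hA' hsub => ⟨hA', hA.2.mono (Set.compl_subset_compl.2 hsub)⟩
      maximal := by
        intro A hA hAF
        have hAc : A.Countable := by
          rcases hc A hA with h | h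
          · exact h
          · exact absurd ⟨hA, h⟩ hAF
        refine ⟨(⋃ x ∈ A, U x)ᶜ, ⟨(isOpen_biUnion fun x _ => hUo x).isClosed_compl, ?_⟩, ?_⟩
        · rw [compl_compl]
          exact hAc.biUnion fun x _ => hUc x
        · rw [Set.eq_empty_iff_forall_notMem]
          rintro x ⟨hx, hx'⟩
          exact hx' (Set.mem_biUnion hx (hxU x)) }
  have hcip : ∀ 𝓖 ⊆ {A : Set S | IsClosed A ∧ Aᶜ.Countable}, 𝓖.Countable → (⋂₀ 𝓖).Nonempty := by
    intro 𝓖 h𝓖 h𝓖c
    by_contra hne
    rw [Set.not_nonempty_iff_eq_empty] at hne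
    apply hu
    have h1 : (Set.univ : Set S) ⊆ ⋃ A ∈ 𝓖, Aᶜ := by
      intro x _
      have hx : x ∉ ⋂₀ 𝓖 := by
        rw [hne]
        exact Set.notMem_empty x
      rw [Set.mem_sInter] at hx
      push Not at hx
      obtain ⟨A, hA, hxA⟩ := hx
      exact Set.mem_biUnion hA hxA
    exact (h𝓖c.biUnion fun A hA => (h𝓖 hA).2).mono h1
  obtain ⟨x, hx⟩ := hα _ hF hcip
  have h2 : (U x)ᶜ ∈ {A : Set S | IsClosed A ∧ Aᶜ.Countable} :=
    ⟨(hUo x).isClosed_compl, by
      rw [compl_compl]
      exact hUc x⟩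
  exact hx _ h2 (hxU x)

end Pool.Agent.Helper391.Wfc
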