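import Pool.Agent.Helper391.Wfc.Defs

set_option autoImplicit false
set_option linter.all false

open Set Topology Filter Cardinal

namespace Pool.Agent.Helper391.Wfc



theorem not_radon (X : Type) [TopologicalSpace X] [T2Space X] (S : Set X) (hu : ¬ S.Countable)
    (hc : ∀ C : Set S, IsClosed C → C.Countable ∨ Cᶜ.Countable)
    (V : Set X) (hV : IsOpen V) (hSV : S ⊆ V) (hK : ∀ C ⊆ V, IsCompact C → C.Countable) :
    ¬ RadonSpace X := by
  classical
  intro hR
  letI : MeasurableSpace X := borel X
  haveI : BorelSpace X := ⟨rfl⟩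
  have dich : ∀ A : Set X, MeasurableSet A → (A ∩ S).Countable ∨ (S \ A).Countable := by
    intro A hA
    refine MeasurableSpace.generateFrom_induction {s : Set X | IsOpen s}
      (fun s _ => (s ∩ S).Countable ∨ (S \ s).Countable) ?_ ?_ ?_ ?_ A hA
    · intro U hU _
      have hcl : IsClosed ({x : S | x.1 ∉ U}) := by
        have : IsOpen ({x : S | x.1 ∈ U}) := hU.preimage continuous_subtype_val
        exact this.isClosed_compl
      rcases hc _ hcl with h | h
      · right
        refine (h.image Subtype.val).mono ?_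
        rintro x ⟨hxS, hxU⟩
        exact ⟨⟨x, hxS⟩, hxU, rfl⟩
      · left
        refine (h.image Subtype.val).mono ?_
        rintro x ⟨hxU, hxS⟩
        exact ⟨⟨x, hxS⟩, fun hn => hn hxU, rfl⟩
    · left; simp
    · intro t _ ht
      rcases ht with h | h
      · right
        refine h.mono ?_
        rintro x ⟨hxS, hxt⟩
        exact ⟨not_not.1 hxt, hxS⟩
      · left
        refine h.mono ?_
        rintro x ⟨hxt, hxS⟩
        exact ⟨hxS, hxt⟩
    · intro f _ hf
      by_cases h : ∃ i, (S \ f i).Countable
      · obtain ⟨i, hi⟩ := h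
        right
        refine hi.mono ?_
        rintro x ⟨hxS, hx⟩
        exact ⟨hxS, fun hxi => hx (mem_iUnion.2 ⟨i, hxi⟩)⟩
      · left
        push Not at h
        rw [iUnion_inter]
        exact countable_iUnion fun i => (hf i).resolve_right (h i)
  let m : ∀ s : Set X, MeasurableSet s → ENNReal := fun s _ => if (S \ s).Countable then 1 else 0
  have m0 : m ∅ MeasurableSet.empty = 0 := by
    show (if (S \ ∅).Countable then (1 : ENNReal) else 0) = 0
    rw [sdiff_empty, if_neg hu]
  have mU : ∀ ⦃f : ℕ → Set X⦄ (h : ∀ i, MeasurableSet (f i)), Pairwise (Function.onFun Disjoint f) →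
      m (⋃ i, f i) (MeasurableSet.iUnion h) = ∑' i, m (f i) (h i) := by
    intro f h hd
    show (if (S \ ⋃ i, f i).Countable then (1 : ENNReal) else 0) =
      ∑' i, (if (S \ f i).Countable then (1 : ENNReal) else 0)
    by_cases hex : ∃ i, (S \ f i).Countable
    · obtain ⟨i, hi⟩ := hex
      have h1 : (S \ ⋃ i, f i).Countable := by
        refine hi.mono ?_
        rintro x ⟨hxS, hx⟩
        exact ⟨hxS, fun hxi => hx (mem_iUnion.2 ⟨i, hxi⟩)⟩
      rw [if_pos h1, tsum_eq_single i, if_pos hi]
      intro j hj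
      rw [if_neg]
      intro hj2
      refine hu ((hi.union hj2).mono ?_)
      intro x hx
      by_cases hxi : x ∈ f i
      · exact Or.inr ⟨hx, fun hxj => (hd hj).le_bot ⟨hxj, hxi⟩⟩
      · exact Or.inl ⟨hx, hxi⟩
    · push Not at hex
      have h1 : ∀ i, (f i ∩ S).Countable := fun i => (dich _ (h i)).resolve_right (hex i)
      have h2 : ¬ (S \ ⋃ i, f i).Countable := by
        intro h3
        refine hu (((countable_iUnion h1).union h3).mono ?_)
        intro x hx
        by_cases hxi : x ∈ ⋃ i, f i
        · obtain ⟨i, hi⟩ := mem_iUnion.1 hxi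
          exact Or.inl (mem_iUnion.2 ⟨i, hi, hx⟩)
        · exact Or.inr ⟨hx, hxi⟩
      rw [if_neg h2]
      symm
      rw [ENNReal.tsum_eq_zero]
      intro i
      rw [if_neg (hex i)]
  let μ : MeasureTheory.Measure X := MeasureTheory.Measure.ofMeasurable m m0 mU
  have hμ : ∀ s : Set X, MeasurableSet s → μ s = if (S \ s).Countable then 1 else 0 := fun s hs =>
    MeasureTheory.Measure.ofMeasurable_apply s hs
  have hfin : MeasureTheory.IsFiniteMeasure μ := by
    refine ⟨?_⟩
    rw [hμ _ MeasurableSet.univ]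
    split_ifs <;> simp
  have hVpos : (0 : ENNReal) < μ V := by
    rw [hμ _ hV.measurableSet, if_pos]
    · exact one_pos
    · rw [sdiff_eq_empty.2 hSV]; exact countable_empty
  obtain ⟨C, hCV, hCc, hC⟩ := hR μ hfin V hV.measurableSet 0 hVpos
  have hCm : MeasurableSet C := hCc.isClosed.measurableSet
  rw [hμ _ hCm] at hC
  have h1 : (S \ C).Countable := by
    by_contra hn
    rw [if_neg hn] at hC
    exact lt_irrefl _ hC
  refine hu (((hK C hCV hCc).union h1).mono ?_)
  intro x hx
  by_cases hxC : x ∈ C
  · exact Or.inl hxC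
  · exact Or.inr ⟨hx, hxC⟩

end Pool.Agent.Helper391.Wfc
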