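import Pool.Agent.Helper391.Wfc.Defs

set_option autoImplicit false
set_option linter.all false

open Set Topology Filter Cardinal

namespace Pool.Agent.Helper391.Wfc



lemma nt_split {T : Type} (I : Set T) (hI : ¬ I.Countable) :
    ∃ I1 I2 : Set T, I1 ⊆ I ∧ I2 ⊆ I ∧ Disjoint I1 I2 ∧ ¬ I1.Countable ∧ ¬ I2.Countable := by
  have hI' : ¬ Countable I := fun hh => hI (Set.countable_coe_iff.1 hh)
  have hinf : Infinite I := by
    by_contra hh
    rw [not_infinite_iff_finite] at hh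
    exact hI' inferInstance
  have hcard : Cardinal.mk (I ⊕ I) = Cardinal.mk I := by
    rw [Cardinal.mk_sum, Cardinal.lift_id]
    exact Cardinal.add_eq_self (Cardinal.aleph0_le_mk I)
  obtain ⟨e⟩ := Cardinal.eq.1 hcard
  have key : ∀ f : I → T, Function.Injective f → ¬ (Set.range f).Countable := by
    intro f hf hc
    have h1 : (f ⁻¹' Set.range f).Countable := hc.preimage_of_injOn hf.injOn
    rw [Set.preimage_range] at h1
    exact hI' (Set.countable_univ_iff.1 h1)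
  refine ⟨Set.range (fun x : I => ((e (Sum.inl x) : I) : T)),
    Set.range (fun x : I => ((e (Sum.inr x) : I) : T)), ?_, ?_, ?_, ?_, ?_⟩
  · rintro _ ⟨x, rfl⟩
    exact (e (Sum.inl x)).2
  · rintro _ ⟨x, rfl⟩
    exact (e (Sum.inr x)).2
  · rw [Set.disjoint_left]
    rintro _ ⟨x, rfl⟩ ⟨y, hy⟩
    have h1 := e.injective (Subtype.ext hy)
    exact absurd h1 (by simp)
  · apply key
    intro x y hxy
    exact Sum.inl_injective (e.injective (Subtype.ext hxy))
  · apply key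
    intro x y hxy
    exact Sum.inr_injective (e.injective (Subtype.ext hxy))

theorem not_theta (S : Type) [TopologicalSpace S] (hu : ¬ (Set.univ : Set S).Countable)
    (hc : ∀ C : Set S, IsClosed C → C.Countable ∨ Cᶜ.Countable)
    (hl : ∀ x : S, ∃ U : Set S, IsOpen U ∧ U.Countable ∧ x ∈ U) : ¬ WeaklyThetaRefinable S := by
  intro hW
  obtain ⟨𝓥, hV, hx⟩ := hW {U | IsOpen U ∧ U.Countable} (fun U hU => hU.1) (by
    rw [Set.eq_univ_iff_forall]
    intro x
    obtain ⟨U, h1, h2, h3⟩ := hl x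
    exact ⟨U, ⟨h1, h2⟩, h3⟩)
  let N : ℕ → S → Set (Set S) := fun n x => {V | V ∈ 𝓥 n ∧ x ∈ V}
  let P : ℕ → ℕ → Set S := fun n k =>
    {x | (∃ V ∈ 𝓥 n, x ∈ V) ∧ (N n x).Finite ∧ (N n x).ncard = k}
  have hP : ∃ n k, ¬ (P n k).Countable := by
    by_contra hh
    push Not at hh
    apply hu
    have : (Set.univ : Set S) ⊆ ⋃ n, ⋃ k, P n k := by
      intro x _
      obtain ⟨n, h1, h2⟩ := hx x
      rw [Set.mem_iUnion]
      refine ⟨n, ?_⟩
      rw [Set.mem_iUnion]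
      exact ⟨_, h1, h2, rfl⟩
    exact (Set.countable_iUnion fun n => Set.countable_iUnion fun k => hh n k).mono this
  obtain ⟨n, k, hX⟩ := hP
  set X := P n k with hXdef
  have hWopen : ∀ x ∈ X, IsOpen (⋂₀ N n x) := by
    intro x hx
    exact hx.2.1.isOpen_sInter (fun V hV' => (hV n V hV'.1).1)
  have hmem : ∀ x, x ∈ ⋂₀ N n x := by
    intro x
    rw [Set.mem_sInter]
    exact fun V hV' => hV'.2
  have hWc : ∀ x ∈ X, (⋂₀ N n x).Countable := by
    intro x hx
    obtain ⟨V, hV1, hV2⟩ := hx.1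
    obtain ⟨U, hU, hVU⟩ := (hV n V hV1).2
    refine hU.2.mono ?_
    intro y hy
    exact hVU (hy V ⟨hV1, hV2⟩)
  have heq : ∀ x ∈ X, ∀ y ∈ X, y ∈ ⋂₀ N n x → N n x = N n y := by
    intro x hx y hy hyx
    have hsub : N n x ⊆ N n y := fun V hV' => ⟨hV'.1, hyx V hV'⟩
    refine Set.eq_of_subset_of_ncard_le hsub ?_ hy.2.1
    rw [hx.2.2, hy.2.2]
  have hI : ¬ (N n '' X).Countable := by
    intro hI
    apply hX
    have : X ⊆ ⋃ s ∈ N n '' X, {x | x ∈ X ∧ N n x = s} := by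
      intro x hx
      exact Set.mem_biUnion (Set.mem_image_of_mem _ hx) ⟨hx, rfl⟩
    refine (hI.biUnion ?_).mono this
    rintro s ⟨x, hx, rfl⟩
    refine (hWc x hx).mono ?_
    rintro y ⟨hy, hyx⟩
    rw [← hyx]
    exact hmem y
  obtain ⟨I1, I2, h1, h2, h12, hc1, hc2⟩ := nt_split _ hI
  have hD : ∀ J : Set (Set (Set S)), J ⊆ N n '' X → ¬ J.Countable →
      ¬ ({x | x ∈ X ∧ N n x ∈ J} : Set S).Countable := by
    intro J hJ hJc hh
    apply hJc
    refine (hh.image (N n)).mono ?_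
    intro s hs
    obtain ⟨x, hx, rfl⟩ := hJ hs
    exact ⟨x, ⟨hx, hs⟩, rfl⟩
  have hD1 := hD I1 h1 hc1
  have hD2 := hD I2 h2 hc2
  rcases hc (closure {x | x ∈ X ∧ N n x ∈ I1}) isClosed_closure with h3 | h3
  · exact hD1 (h3.mono subset_closure)
  · have : ∃ x ∈ ({x | x ∈ X ∧ N n x ∈ I2} : Set S), x ∈ closure {x | x ∈ X ∧ N n x ∈ I1} := by
      by_contra hh
      push Not at hh
      exact hD2 (h3.mono hh)
    obtain ⟨x, ⟨hxX, hxI⟩, hxc⟩ := this
    rw [mem_closure_iff] at hxc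
    obtain ⟨y, hyW, hyX, hyI⟩ := hxc _ (hWopen x hxX) (hmem x)
    have := heq x hxX y hyX hyW
    rw [this] at hxI
    exact Set.disjoint_left.1 h12 hyI hxI

end Pool.Agent.Helper391.Wfc
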