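import Pool.Agent.Helper391.Wfc.Defs
import Pool.Agent.Helper391.Wfc.P_openK
import Pool.Agent.Helper391.Wfc.P_closedK

set_option autoImplicit false
set_option linter.all false

open Set Topology Filter Cardinal

namespace Pool.Agent.Helper391.Wfc



/-- `W` contains a basic neighbourhood of `x` -/
def SEN (f : Om → Row) (x : Pt) (W : Set Pt) : Prop := ∃ F, Small x.1 F ∧ B f x F ⊆ W

theorem SEN.mono {f : Om → Row} {x : Pt} {W W' : Set Pt} (h : SEN f x W) (hW : W ⊆ W') :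
    SEN f x W' := by
  obtain ⟨F, hF, h⟩ := h
  exact ⟨F, hF, h.trans hW⟩

theorem SEN.inter {f : Om → Row} {x : Pt} {W W' : Set Pt} (h : SEN f x W) (h' : SEN f x W') :
    SEN f x (W ∩ W') := by
  obtain ⟨F, hF, h⟩ := h
  obtain ⟨G, hG, h'⟩ := h'
  refine ⟨F ∪ G, ⟨hF.1.union hG.1, ?_⟩, ?_⟩
  · rintro w (hw | hw)
    · exact hF.2 w hw
    · exact hG.2 w hw
  · intro z hz
    exact ⟨h ⟨hz.1, fun w hw => hz.2 w (Or.inl hw)⟩, h' ⟨hz.1, fun w hw => hz.2 w (Or.inr hw)⟩⟩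

theorem SEN.self (f : Om → Row) (x : Pt) : SEN f x (K f x) :=
  ⟨∅, ⟨Set.finite_empty, fun w hw => absurd hw (Set.notMem_empty w)⟩, fun _ hz => hz.1⟩

theorem SEN.forall_lt {f : Om → Row} {x : Pt} (W : ℕ → Set Pt) (i : ℕ)
    (h : ∀ j < i, SEN f x (W j)) : SEN f x {z | ∀ j < i, z ∈ W j} := by
  induction i with
  | zero =>
    exact (SEN.self f x).mono fun z _ j hj => absurd hj (Nat.not_lt_zero j)
  | succ i ih =>
    refine ((ih fun j hj => h j (Nat.lt_succ_of_lt hj)).inter (h i (Nat.lt_succ_self i))).mono ?_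
    intro z hz j hj
    rcases Nat.lt_succ_iff_lt_or_eq.1 hj with h1 | h1
    · exact hz.1 j h1
    · rw [h1]; exact hz.2

theorem SEN_choice (H : Om → ℕ → Set Pt) (f : Om → Row) (a : Om) (w : ℕ → Pt)
    (hw : ∀ n, (w n).1 < a) (A : ℕ → Set Pt) (hA : ∀ i, ∀ x ∈ A i, x.1 < a)
    (hNC : ∀ i, NC f a (A i)) :
    ∃ c : ℕ → Pt, ∀ i, c i ∈ A i ∧ ∀ j < i, c i ∉ K f (w j) ∧ c i ∉ K f (c j) := by
  obtain ⟨c, hc⟩ := exists_rec (I := ℕ) (R := Pt)
    (fun i c r => r ∈ A i ∧ ∀ j < i, r ∉ K f (w j) ∧ r ∉ K f (c j))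
    (by
      intro i c c' r hcc' hr
      refine ⟨hr.1, fun j hj => ⟨(hr.2 j hj).1, ?_⟩⟩
      rw [← hcc' j hj]
      exact (hr.2 j hj).2)
    (by
      intro i c hc
      obtain ⟨x, hx, hxF⟩ := hNC i ((w '' Set.Iio i) ∪ (c '' Set.Iio i))
        ⟨((Set.finite_Iio i).image w).union ((Set.finite_Iio i).image c), by
          rintro _ (⟨j, hj, rfl⟩ | ⟨j, hj, rfl⟩)
          · exact hw j
          · exact hA j _ (hc j hj).1⟩
      exact ⟨x, hx, fun j hj => ⟨hxF _ (Or.inl ⟨j, hj, rfl⟩), hxF _ (Or.inr ⟨j, hj, rfl⟩)⟩⟩)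
  exact ⟨c, hc⟩

theorem stage_exists (H : Om → ℕ → Set Pt) (f : Om → Row) (a : Om)
    (hf : ∀ b < a, Stage H b f (f b)) : ∃ r, Stage H a f r := by
  classical
  -- the tasks
  set T : Set (Om × ℕ × ℕ × ℕ) := {t | t.1 ≤ a ∧ t.2.2.1 ≤ rk t.2.2.2 ∧
    NC f a {x | x ∈ H t.1 t.2.1 ∧ x.1 < a ∧ rk x.2 = t.2.2.1}} with hT
  by_cases hTe : T.Nonempty
  swap
  · refine ⟨fun _ => ∅, ?_, ?_, ?_, ?_, ?_⟩
    · intro k x hx; exact absurd hx (Set.notMem_empty x)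
    · intro k x hx; exact absurd hx (Set.notMem_empty x)
    · intro k x _ _
      exact ⟨∅, ⟨Set.finite_empty, fun w hw => absurd hw (Set.notMem_empty w)⟩, Set.disjoint_empty _⟩
    · intro k l _; exact Set.disjoint_empty _
    · intro b hb j m hNC k hm F hF
      exact absurd ⟨(b, j, m, k), hb, hm, hNC⟩ hTe
  have hTc : T.Countable := by
    have h1 : T ⊆ (Set.Iic a) ×ˢ (Set.univ : Set (ℕ × ℕ × ℕ)) := fun t ht => ⟨ht.1, trivial⟩
    exact ((countable_Iic a).prod (Set.countable_univ)).mono h1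
  obtain ⟨g, hg⟩ := hTc.exists_eq_range hTe
  have hgT : ∀ n, g n ∈ T := fun n => by rw [hg]; exact ⟨n, rfl⟩
  set Y : Set Pt := {x | x.1 < a} with hY
  have hYc : Y.Countable := by
    have h1 : Y ⊆ (Set.Iio a) ×ˢ (Set.univ : Set ℕ) := fun t ht => ⟨ht, trivial⟩
    exact ((countable_Iio a).prod (Set.countable_univ)).mono h1
  have hYe : Y.Nonempty := by
    obtain ⟨t, ht⟩ := hTe
    obtain ⟨x, hx, -⟩ := ht.2.2 ∅ ⟨Set.finite_empty, fun w hw => absurd hw (Set.notMem_empty w)⟩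
    exact ⟨x, hx.2.1⟩
  obtain ⟨w, hw⟩ := hYc.exists_eq_range hYe
  have hwY : ∀ n, (w n).1 < a := fun n => by
    have : w n ∈ Y := by rw [hw]; exact ⟨n, rfl⟩
    exact this
  -- the task at time i
  let t : ℕ → Om × ℕ × ℕ × ℕ := fun i => g (Nat.unpair i).1
  have htT : ∀ i, t i ∈ T := fun i => hgT _
  obtain ⟨c, hc⟩ := SEN_choice H f a w hwY
    (fun i => {x | x ∈ H (t i).1 (t i).2.1 ∧ x.1 < a ∧ rk x.2 = (t i).2.2.1})
    (fun i x hx => hx.2.1) (fun i => (htT i).2.2)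
  have hca : ∀ i, (c i).1 < a := fun i => (hc i).1.2.1
  let V : ℕ → Set Pt := fun i => {x | x ∈ K f (c i) ∧ ∀ j < i, x ∉ K f (w j) ∧ x ∉ K f (c j)}
  have hcV : ∀ i, c i ∈ V i := fun i => ⟨Set.mem_insert _ _, (hc i).2⟩
  have hVlt : ∀ i j, i < j → ∀ x, x ∈ V i → x ∉ V j := fun i j hij x hx hx' =>
    (hx'.2 i hij).2 hx.1
  have hVne : ∀ i j, i ≠ j → ∀ x, x ∈ V i → x ∉ V j := by
    intro i j hij x hx hx'
    rcases lt_or_gt_of_ne hij with h | h
    · exact hVlt i j h x hx hx'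
    · exact hVlt j i h x hx' hx
  have hVsub : ∀ i x, x ∈ V i → x.1 < a ∧ rk x.2 ≤ rk (t i).2.2.2 := by
    intro i x hx
    have h2 : rk (c i).2 ≤ rk (t i).2.2.2 := by
      have h3 : rk (c i).2 = (t i).2.2.1 := (hc i).1.2.2
      rw [h3]; exact (htT i).2.1
    rcases hx.1 with h | h
    · rw [h]; exact ⟨hca i, h2⟩
    · obtain ⟨h3, h4⟩ := (hf _ (hca i)).sub _ x h
      exact ⟨h3.trans (hca i), h4.trans h2⟩
  have hopen : ∀ (x y : Pt), y.1 < a → x ∈ K f y → SEN f x (K f y) :=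
    fun x y hy h => openK H f x y (hf _ hy) h
  have hclosed : ∀ (x y : Pt), x.1 < a → y.1 < a → x ∉ K f y → SEN f x (K f y)ᶜ := by
    intro x y hx hy h
    obtain ⟨F, hF, hd⟩ := closedK H f x y (hf _ hx) (hf _ hy) h
    exact ⟨F, hF, Set.disjoint_left.1 hd⟩
  refine ⟨fun k => {x | ∃ i, (t i).2.2.2 = k ∧ x ∈ V i}, ?_, ?_, ?_, ?_, ?_⟩
  · rintro k x ⟨i, rfl, hx⟩
    exact hVsub i x hx
  · rintro k x ⟨i, hik, hx⟩
    have hxa := (hVsub i x hx).1
    have h1 := hopen x (c i) (hca i) hx.1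
    have h2 := SEN.forall_lt (f := f) (x := x) (fun j => (K f (w j))ᶜ ∩ (K f (c j))ᶜ) i
      (fun j hj => (hclosed x _ hxa (hwY j) (hx.2 j hj).1).inter
        (hclosed x _ hxa (hca j) (hx.2 j hj).2))
    obtain ⟨F, hF, hFs⟩ := h1.inter h2
    refine ⟨F, hF, fun z hz => ⟨i, hik, ?_⟩⟩
    have h3 := hFs hz
    exact ⟨h3.1, fun j hj => ⟨(h3.2 j hj).1, (h3.2 j hj).2⟩⟩
  · intro k x hxa hx
    obtain ⟨j₀, hj₀⟩ : ∃ j, w j = x := by
      have : x ∈ Y := hxa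
      rw [hw] at this
      exact this
    have h1 : ∀ i < j₀ + 1, SEN f x {z | (t i).2.2.2 = k → z ∉ V i} := by
      intro i _
      by_cases hik : (t i).2.2.2 = k
      swap
      · exact (SEN.self f x).mono fun z _ h => absurd h hik
      have hxV : x ∉ V i := fun h => hx ⟨i, hik, h⟩
      by_cases hxK : x ∈ K f (c i)
      swap
      · exact (hclosed x _ hxa (hca i) hxK).mono fun z hz _ hzV => hz hzV.1
      have h2 : ∃ j < i, x ∈ K f (w j) ∨ x ∈ K f (c j) := by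
        by_contra hcon
        push Not at hcon
        exact hxV ⟨hxK, fun j hj => hcon j hj⟩
      obtain ⟨j, hj, h2 | h2⟩ := h2
      · exact (hopen x _ (hwY j) h2).mono fun z hz _ hzV => (hzV.2 j hj).1 hz
      · exact (hopen x _ (hca j) h2).mono fun z hz _ hzV => (hzV.2 j hj).2 hz
    obtain ⟨F, hF, hFs⟩ := (SEN.self f x).inter
      (SEN.forall_lt (fun i => {z | (t i).2.2.2 = k → z ∉ V i}) (j₀ + 1) h1)
    refine ⟨F, hF, Set.disjoint_left.2 ?_⟩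
    rintro z hz ⟨i, hik, hzV⟩
    have h3 := hFs hz
    rcases Nat.lt_or_ge i (j₀ + 1) with h | h
    · exact h3.2 i h hik hzV
    · have h4 := (hzV.2 j₀ h).1
      rw [hj₀] at h4
      exact h4 h3.1
  · intro k l hkl
    refine Set.disjoint_left.2 ?_
    rintro x ⟨i, hik, hxi⟩ ⟨j, hjl, hxj⟩
    refine hVne i j ?_ x hxi hxj
    rintro rfl
    exact hkl (hik.symm.trans hjl)
  · intro b hb j m hNC k hm F hF
    have hmem : ((b, j, m, k) : Om × ℕ × ℕ × ℕ) ∈ T := ⟨hb, hm, hNC⟩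
    rw [hg] at hmem
    obtain ⟨n, hn⟩ := hmem
    obtain ⟨l, hl⟩ : ∃ l, ∀ y ∈ F, ∃ i < l, w i = y := by
      have h1 : ∀ y ∈ F, ∃ i, w i = y := fun y hy => by
        have : y ∈ Y := hF.2 y hy
        rw [hw] at this
        exact this
      choose! ix hix using h1
      obtain ⟨l, hl⟩ := (hF.1.image ix).bddAbove
      exact ⟨l + 1, fun y hy => ⟨ix y, Nat.lt_succ_of_le (hl ⟨y, hy, rfl⟩), hix y hy⟩⟩
    have hti : t (Nat.pair n l) = (b, j, m, k) := by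
      show g (Nat.unpair (Nat.pair n l)).1 = _
      rw [Nat.unpair_pair, hn]
    have hci := hc (Nat.pair n l)
    rw [hti] at hci
    refine ⟨c (Nat.pair n l), ⟨Nat.pair n l, ?_, hcV _⟩, hci.1.1, hci.1.2.2, ?_⟩
    · rw [hti]
    · intro y hy
      obtain ⟨i, hi, rfl⟩ := hl y hy
      exact (hci.2 i (hi.trans_le (Nat.right_le_pair n l))).1

end Pool.Agent.Helper391.Wfc
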