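import Pool.Agent.Helper391.Wfc.Defs
import Pool.Agent.Helper391.Wfc.P_isOpen_K
import Pool.Agent.Helper391.Wfc.P_isClosed_K

set_option autoImplicit false
set_option linter.all false

open Set Topology Filter Cardinal

namespace Pool.Agent.Helper391.Wfc



theorem t2 (H : Om → ℕ → Set Pt) (f : Om → Row) (hf : ∀ a, Stage H a f (f a)) :
    T2Space (Sp f) := by
  have key : ∀ x y : Pt, x ∉ K f y → ∃ U V : Set (Sp f), IsOpen U ∧ IsOpen V ∧
      (show Sp f from x) ∈ U ∧ (show Sp f from y) ∈ V ∧ Disjoint U V := by
    intro x y hxy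
    refine ⟨(show Set (Sp f) from K f y)ᶜ, (show Set (Sp f) from K f y),
      (isClosed_K H f hf y).isOpen_compl, isOpen_K H f hf y, hxy, Set.mem_insert _ _, ?_⟩
    exact disjoint_compl_left
  refine ⟨fun x y hne => ?_⟩
  by_cases hx : (show Pt from x) ∈ K f (show Pt from y)
  · have h1 : (show Pt from x) ∈ f (show Pt from y).1 (show Pt from y).2 := by
      rcases hx with h | h
      · exact absurd h hne
      · exact h
    have h2 := ((hf (show Pt from y).1).sub _ _ h1).1
    have h3 : (show Pt from y) ∉ K f (show Pt from x) := by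
      rintro (h | h)
      · exact hne h.symm
      · have h4 := ((hf (show Pt from x).1).sub _ _ h).1
        exact lt_asymm h2 h4
    obtain ⟨U, V, hU, hV, hyU, hxV, hd⟩ := key y x h3
    exact ⟨V, U, hV, hU, hxV, hyU, hd.symm⟩
  · exact key x y hx

end Pool.Agent.Helper391.Wfc
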