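import Pool.Agent.Helper391.Wfc.Defs

set_option autoImplicit false
set_option linter.all false

open Set Topology Filter Cardinal

namespace Pool.Agent.Helper391.Wfc



theorem uncountable_zero (f : Om → Row) :
    ¬ {x : OnePoint (Sp f) | ∃ y : Pt, rk y.2 = 0 ∧ x = ((show Sp f from y) : Sp f)}.Countable := by
  intro hc
  have hinj : Function.Injective (fun a : Om => ((show Sp f from ((a, 0) : Pt) : Sp f) :
      OnePoint (Sp f))) := by
    intro a b hab
    have h1 := OnePoint.coe_injective hab
    exact congrArg Prod.fst (h1 : ((a, 0) : Pt) = (b, 0))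
  have h2 : (univ : Set Om).Countable := by
    refine Set.Countable.mono (s₂ := (fun a : Om => ((show Sp f from ((a, 0) : Pt) : Sp f) :
      OnePoint (Sp f))) ⁻¹' {x : OnePoint (Sp f) | ∃ y : Pt, rk y.2 = 0 ∧
        x = ((show Sp f from y) : Sp f)}) ?_ (hc.preimage hinj)
    intro a _
    refine ⟨(a, 0), ?_, rfl⟩
    show (Nat.unpair 0).1 = 0
    simp
  exact not_countable_univ h2

end Pool.Agent.Helper391.Wfc
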