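import Pool.Agent.Helper391.Wfc.Defs
import Pool.Agent.Helper391.Wfc.P_isOpen_K
import Pool.Agent.Helper391.Wfc.P_isCompact_K

set_option autoImplicit false
set_option linter.all false

open Set Topology Filter Cardinal

namespace Pool.Agent.Helper391.Wfc



theorem wfc (H : Om → ℕ → Set Pt) (f : Om → Row) (hf : ∀ a, Stage H a f (f a))
    (hb : ∀ (n : ℕ) (C : Set (Sp f)), IsClosed C →
      (∀ x : Pt, x ∈ (show Set Pt from C) → rk x.2 < n) →
      ∃ F : Set Pt, F.Finite ∧ ∀ x : Pt, x ∈ (show Set Pt from C) → ∃ w ∈ F, x ∈ K f w) :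
    WeaklyFirstCountable (OnePoint (Sp f)) := by
  classical
  have hcnt : ∀ y : Pt, {w : Pt | w.1 < y.1}.Countable := by
    intro y
    have h1 : {w : Pt | w.1 < y.1} = Iio y.1 ×ˢ (univ : Set ℕ) := by
      ext w
      simp
    rw [h1]
    exact (countable_Iio y.1).prod countable_univ
  have hinj : ∀ y : Pt, ∃ g : Pt → ℕ, InjOn g {w : Pt | w.1 < y.1} := fun y =>
    Set.countable_iff_exists_injOn.1 (hcnt y)
  choose g hg using hinj
  have hSmall : ∀ (y : Pt) (n : ℕ), Small y.1 {w : Pt | w.1 < y.1 ∧ g y w < n} := by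
    intro y n
    refine ⟨?_, fun w hw => hw.1⟩
    refine Set.Finite.of_finite_image (f := g y) ((Set.finite_Iio n).subset ?_) ?_
    · rintro _ ⟨w, hw, rfl⟩
      exact hw.2
    · exact (hg y).mono (fun w hw => hw.1)
  have hself : ∀ (y : Pt) (F : Set Pt), (∀ w ∈ F, w.1 < y.1) → y ∈ B f y F := by
    intro y F hF
    refine ⟨mem_insert _ _, ?_⟩
    intro w hw hy
    rcases hy with hy | hy
    · have := hF w hw
      rw [hy] at this
      exact lt_irrefl _ this
    · have h1 := ((hf w.1).sub w.2 y hy).1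
      exact lt_irrefl _ (h1.trans (hF w hw))
  have hanti : ∀ (y : Pt) (F G : Set Pt), F ⊆ G → B f y G ⊆ B f y F := by
    intro y F G hFG x hx
    exact ⟨hx.1, fun w hw => hx.2 w (hFG hw)⟩
  let V0 : Pt → ℕ → Set (OnePoint (Sp f)) := fun y n =>
    (OnePoint.some : Sp f → OnePoint (Sp f)) '' (show Set (Sp f) from
      B f y {w : Pt | w.1 < y.1 ∧ g y w < n})
  let Vi : ℕ → Set (OnePoint (Sp f)) := fun n =>
    {OnePoint.infty} ∪ (OnePoint.some : Sp f → OnePoint (Sp f)) '' (show Set (Sp f) from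
      {x : Pt | n ≤ rk x.2})
  let V : OnePoint (Sp f) → ℕ → Set (OnePoint (Sp f)) := fun x n =>
    match x with
    | none => Vi n
    | some y => V0 y n
  have hVi : ∀ n, V OnePoint.infty n = Vi n := fun n => rfl
  have hV0 : ∀ (y : Sp f) n, V (OnePoint.some y) n = V0 y n := fun y n => rfl
  have hrk : ∀ (x w : Pt), x ∈ K f w → rk x.2 ≤ rk w.2 := by
    intro x w hx
    rcases hx with hx | hx
    · rw [hx]
    · exact ((hf w.1).sub w.2 x hx).2
  refine ⟨V, ?_, ?_⟩
  · intro x n
    induction x using OnePoint.rec with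
    | infty =>
      rw [hVi, hVi]
      refine ⟨Or.inl rfl, ?_⟩
      rintro z (hz | ⟨x, hx, rfl⟩)
      · exact Or.inl hz
      · exact Or.inr ⟨x, (Nat.le_succ n).trans hx, rfl⟩
    | coe y =>
      rw [hV0, hV0]
      refine ⟨⟨y, hself y _ (fun w hw => hw.1), rfl⟩, ?_⟩
      refine Set.image_mono ?_
      exact hanti y _ _ (fun w hw => ⟨hw.1, hw.2.trans (Nat.lt_succ_self n)⟩)
  · intro U
    constructor
    · intro hU x hx
      rw [OnePoint.isOpen_def] at hU
      induction x using OnePoint.rec with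
      | infty =>
        have hC := hU.1 hx
        obtain ⟨t, ht⟩ := hC.elim_finite_subcover (fun w : Pt => (show Set (Sp f) from K f w))
          (fun w => isOpen_K H f hf w) (fun x _ => mem_iUnion.2 ⟨x, mem_insert _ _⟩)
        refine ⟨t.sup (fun w => rk w.2 + 1), ?_⟩
        rw [hVi]
        rintro z (hz | ⟨x, hx', rfl⟩)
        · rw [hz]; exact hx
        · by_contra hxU
          have h1 : x ∈ ((OnePoint.some : Sp f → OnePoint (Sp f)) ⁻¹' U)ᶜ := hxU
          have h2 := ht h1
          rw [mem_iUnion₂] at h2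
          obtain ⟨w, hw, hxw⟩ := h2
          have h3 := hrk x w hxw
          have h4 : rk w.2 + 1 ≤ t.sup (fun w => rk w.2 + 1) :=
            Finset.le_sup (f := fun w : Pt => rk w.2 + 1) hw
          have h5 : t.sup (fun w => rk w.2 + 1) ≤ rk (show Pt from x).2 := hx'
          change rk (show Pt from x).2 ≤ _ at h3
          omega
      | coe y =>
        have h1 := (isOpen_iff' _).1 hU.2 y hx
        obtain ⟨F, hF, hFU⟩ := h1
        obtain ⟨n, hn⟩ := (hF.1.image (g y)).bddAbove
        refine ⟨n + 1, ?_⟩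
        rw [hV0]
        rintro _ ⟨x, hx', rfl⟩
        refine hFU (hanti y F _ ?_ hx')
        intro w hw
        exact ⟨hF.2 w hw, Nat.lt_succ_of_le (hn ⟨w, hw, rfl⟩)⟩
    · intro h
      rw [OnePoint.isOpen_def]
      have hop : IsOpen ((OnePoint.some : Sp f → OnePoint (Sp f)) ⁻¹' U) := by
        rw [isOpen_iff']
        intro y hy
        obtain ⟨n, hn⟩ := h _ hy
        have hn' : V0 y n ⊆ U := hn
        refine ⟨_, hSmall y n, ?_⟩
        intro x hx
        exact hn' ⟨x, hx, rfl⟩
      refine ⟨?_, hop⟩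
      intro hinf
      obtain ⟨n, hn⟩ := h _ hinf
      rw [hVi] at hn
      have hcl : IsClosed ((OnePoint.some : Sp f → OnePoint (Sp f)) ⁻¹' U)ᶜ := hop.isClosed_compl
      obtain ⟨F, hF, hcov⟩ := hb n _ hcl (by
        intro x hx
        by_contra hlt
        rw [not_lt] at hlt
        exact hx (hn (Or.inr ⟨x, hlt, rfl⟩)))
      have hcomp : IsCompact (⋃ w ∈ F, (show Set (Sp f) from K f w)) :=
        hF.isCompact_biUnion (fun w _ => isCompact_K H f hf w)
      refine hcomp.of_isClosed_subset hcl ?_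
      intro x hx
      obtain ⟨w, hw, hxw⟩ := hcov x hx
      exact mem_iUnion₂.2 ⟨w, hw, hxw⟩

end Pool.Agent.Helper391.Wfc
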