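import Pool.Agent.Helper391.Wfc.P_diamond_prod
import Pool.Agent.Helper391.Wfc.P_diamond_CH
import Pool.Agent.Helper391.Wfc.P_enum_countable
import Pool.Agent.Helper391.Wfc.P_stage_exists
import Pool.Agent.Helper391.Wfc.P_t2
import Pool.Agent.Helper391.Wfc.P_isCompact_K
import Pool.Agent.Helper391.Wfc.P_isOpen_K
import Pool.Agent.Helper391.Wfc.P_closed_bounded
import Pool.Agent.Helper391.Wfc.P_wfc
import Pool.Agent.Helper391.Wfc.P_closed_zero
import Pool.Agent.Helper391.Wfc.P_locally_countable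
import Pool.Agent.Helper391.Wfc.P_uncountable_zero
import Pool.Agent.Helper391.Wfc.P_not_alpha
import Pool.Agent.Helper391.Wfc.P_not_theta
import Pool.Agent.Helper391.Wfc.P_not_radon
import Pool.Agent.Helper391.Wfc.P_compact_countable
import Pool.Agent.Helper391.Wfc.P_limit_uncountable

set_option autoImplicit false
set_option linter.all false

open Set Topology Filter Cardinal

namespace Pool.Agent.Helper391.Wfc

theorem K_congr (f f' : Om → Row) (a : Om) (h : ∀ b < a, f b = f' b) (w : Pt) (hw : w.1 < a) :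
    K f w = K f' w := by
  unfold K
  rw [h w.1 hw]

theorem B_congr (f f' : Om → Row) (a : Om) (h : ∀ b < a, f b = f' b) (x : Pt) (hx : x.1 < a)
    (F : Set Pt) (hF : Small x.1 F) : B f x F = B f' x F := by
  unfold B
  rw [K_congr f f' a h x hx]
  ext z
  constructor
  · rintro ⟨h1, h2⟩
    exact ⟨h1, fun w hw => by rw [← K_congr f f' a h w ((hF.2 w hw).trans hx)]; exact h2 w hw⟩
  · rintro ⟨h1, h2⟩
    exact ⟨h1, fun w hw => by rw [K_congr f f' a h w ((hF.2 w hw).trans hx)]; exact h2 w hw⟩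

theorem NC_congr (f f' : Om → Row) (a : Om) (h : ∀ b < a, f b = f' b) (A : Set Pt)
    (hA : NC f a A) : NC f' a A := by
  intro F hF
  obtain ⟨x, hx, h2⟩ := hA F hF
  exact ⟨x, hx, fun w hw => by rw [← K_congr f f' a h w (hF.2 w hw)]; exact h2 w hw⟩

theorem stages_exist (H : Om → ℕ → Set Pt) : ∃ f : Om → Row, ∀ a, Stage H a f (f a) := by
  refine exists_rec (fun a f r => Stage H a f r) ?_ ?_
  · intro a f f' r hff h
    refine ⟨h.sub, ?_, ?_, h.disj, ?_⟩
    · intro k x hx
      obtain ⟨F, hF, h1⟩ := h.opn k x hx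
      refine ⟨F, hF, ?_⟩
      rw [← B_congr f f' a hff x (h.sub k x hx).1 F hF]
      exact h1
    · intro k x hxa hx
      obtain ⟨F, hF, h1⟩ := h.cls k x hxa hx
      refine ⟨F, hF, ?_⟩
      rw [← B_congr f f' a hff x hxa F hF]
      exact h1
    · intro b hb j m hnc k hk F hF
      have hnc' := NC_congr f' f a (fun b hb => (hff b hb).symm) _ hnc
      obtain ⟨x, h1, h2, h3, h4⟩ := h.lim b hb j m hnc' k hk F hF
      exact ⟨x, h1, h2, h3, fun w hw => by
        rw [← K_congr f f' a hff w (hF.2 w hw)]; exact h4 w hw⟩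
  · intro a f hf
    exact stage_exists H f a hf

theorem main (h : Diamond) : ∃ (X : Type) (_ : TopologicalSpace X), CompactSpace X ∧ T2Space X ∧
    WeaklyFirstCountable X ∧ (∃ S : Set X, ¬ AlphaRealcompact S) ∧ ¬ RadonSpace X ∧
    ∃ S : Set X, ¬ WeaklyThetaRefinable S := by
  obtain ⟨G, hG⟩ := diamond_prod h
  obtain ⟨E, hE⟩ := enum_countable (diamond_CH h)
  let H : Om → ℕ → Set Pt := fun a j => if j = 0 then {x | x ∈ G a ∧ x.1 < a} else E a
  have hH0 : ∀ a, H a 0 = {x | x ∈ G a ∧ x.1 < a} := fun a => by simp [H]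
  have hH1 : ∀ C : Set Pt, C.Countable → ∃ a, H a 1 = C := by
    intro C hC
    obtain ⟨a, ha⟩ := hE C hC
    exact ⟨a, by simpa [H] using ha⟩
  obtain ⟨f, hf⟩ := stages_exist H
  haveI : T2Space (Sp f) := t2 H f hf
  haveI : WeaklyLocallyCompactSpace (Sp f) := by
    refine ⟨fun y => ⟨(show Set (Sp f) from K f y), isCompact_K H f hf y, ?_⟩⟩
    exact (isOpen_K H f hf y).mem_nhds (Set.mem_insert _ _)
  have hS := uncountable_zero f
  have hS' : ¬ (Set.univ : Set {x : OnePoint (Sp f) | ∃ y : Pt, rk y.2 = 0 ∧ x = ((show Sp f from y) : Sp f)}).Countable := by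
    intro hcon
    exact hS (Set.countable_univ_iff.1 hcon).to_set
  have hlu : ∀ A : Set Pt, ¬ A.Countable → (∀ x ∈ A, rk x.2 = 0) →
      ∃ d : Om, ∀ y : Pt, d ≤ y.1 → 0 ≤ rk y.2 →
        (show Sp f from y) ∈ closure (show Set (Sp f) from A) :=
    fun A hA hA0 => limit_uncountable H G hG hH0 f hf 0 A hA hA0
  have hcz := closed_zero f hlu
  have hlc := locally_countable H f hf
  refine ⟨OnePoint (Sp f), inferInstance, inferInstance, inferInstance, ?_, ?_, ?_, ?_⟩
  · exact wfc H f hf (fun n C hC hn => closed_bounded H G hG hH0 hH1 f hf n C hC hn)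
  · exact ⟨_, not_alpha _ hS' hcz hlc⟩
  · refine not_radon (OnePoint (Sp f)) _ hS hcz (Set.range ((↑) : Sp f → OnePoint (Sp f)))
      (OnePoint.isOpen_range_coe) ?_ (fun C hC hCc => compact_countable H f hf C hC hCc)
    rintro x ⟨y, _, rfl⟩
    exact ⟨_, rfl⟩
  · exact ⟨_, not_theta _ hS' hcz hlc⟩

end Pool.Agent.Helper391.Wfc
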